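import Pool.Agent.D0H92.SI.Bad

set_option autoImplicit false

/-!
# Perfect numbers in short intervals and progressions
-/

namespace Pool.Agent.D0H92.SI

open Finset

/-- at most one member of a short progression is divisible by a large number prime to the exceptional primes -/
lemma one_multiple {x y Q a : ℕ} (hQ : 1 ≤ Q) {B d : ℕ} (hd : 0 < d) (hB : y * d ≤ B)
    (hg : ∀ n, n ≡ a [MOD Q] → B ∣ n → Nat.gcd Q B ≤ d) {n n' : ℕ} (hn : n ∈ Finset.Ioc x (x + Q * y))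
    (hn' : n' ∈ Finset.Ioc x (x + Q * y)) (h6 : n ≡ a [MOD Q]) (h8 : n' ≡ a [MOD Q]) (h2 : B ∣ n) (h4 : B ∣ n') : ¬ n < n' := by
  intro hlt
  rw [mem_Ioc] at hn hn'
  have hQd : Q ∣ n' - n := (Nat.modEq_iff_dvd' hlt.le).1 (h6.trans h8.symm)
  have hBd : B ∣ n' - n := Nat.dvd_sub h4 h2
  have hl : Nat.lcm Q B ∣ n' - n := Nat.lcm_dvd hQd hBd
  have hl2 : Nat.lcm Q B ≤ n' - n := Nat.le_of_dvd (by omega) hl
  have h9 : Nat.gcd Q B * Nat.lcm Q B = Q * B := Nat.gcd_mul_lcm Q B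
  have h10 : Nat.gcd Q B * Nat.lcm Q B ≤ d * (n' - n) := Nat.mul_le_mul (hg n h6 h2) hl2
  have h11 : n' - n < Q * y := by omega
  have h12 : d * (n' - n) < d * (Q * y) := Nat.mul_lt_mul_of_pos_left h11 hd
  have h13 : Q * (y * d) ≤ Q * B := Nat.mul_le_mul_left _ hB
  nlinarith

open Classical in
/-- Perfect numbers in progressions. -/
theorem ap_perfect (ε : ℝ) (hε : 0 < ε) : ∃ C : ℝ, 0 < C ∧ ∀ x y Q a : ℕ, 1 ≤ y → 1 ≤ Q → 16 ≤ x + Q * y →
    (((Finset.Ioc x (x + Q * y)).filter fun n => n ≡ a [MOD Q] ∧ n.Perfect).card : ℝ) ≤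
      C * (3 * Real.log ((x + Q * y : ℕ) : ℝ)) ^ (Nat.gcd a Q).primeFactors.card *
        ((y : ℝ) ^ ε + Real.log (Real.log (Real.log ((x + Q * y : ℕ) : ℝ)))) := by
  obtain ⟨C, hC, h⟩ := critP ε hε
  refine ⟨C, hC, ?_⟩
  intro x y Q a hy hQ hX
  set 𝒩 := (Finset.Ioc x (x + Q * y)).filter fun n => n ≡ a [MOD Q] ∧ n.Perfect with h𝒩
  have hg : 0 < Nat.gcd a Q := Nat.gcd_pos_of_pos_right _ hQ
  have hone : ∀ B : ℕ, y ≤ B → (∀ p ∈ (Nat.gcd a Q).primeFactors, p.Prime → ¬ p ∣ B) →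
      ((𝒩.filter fun N => B ∣ N).card : ℝ) ≤ 1 := by
    intro B hB hBP
    have hgd : ∀ n, n ≡ a [MOD Q] → B ∣ n → Nat.gcd Q B ≤ 1 := by
      intro n hn hBn
      have hg1 : Nat.gcd Q B ∣ Nat.gcd a Q := by
        apply Nat.dvd_gcd _ (Nat.gcd_dvd_left _ _)
        exact (hn.dvd_iff (Nat.gcd_dvd_left Q B)).1 ((Nat.gcd_dvd_right Q B).trans hBn)
      by_contra hne
      push Not at hne
      obtain ⟨p, hp, hpd⟩ := Nat.exists_prime_and_dvd (show Nat.gcd Q B ≠ 1 by omega)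
      exact hBP p (Nat.mem_primeFactors.2 ⟨hp, hpd.trans hg1, hg.ne'⟩) hp (hpd.trans (Nat.gcd_dvd_right _ _))
    have h1 : (𝒩.filter fun N => B ∣ N).card ≤ 1 := by
      rw [card_le_one]
      have key : ∀ n ∈ 𝒩.filter (fun N => B ∣ N), ∀ n' ∈ 𝒩.filter (fun N => B ∣ N), ¬ n < n' := by
        intro n hn n' hn'
        obtain ⟨h1, h2⟩ := mem_filter.1 hn
        obtain ⟨h3, h4⟩ := mem_filter.1 hn'
        obtain ⟨h5, h6, -⟩ := mem_filter.1 h1
        obtain ⟨h7, h8, -⟩ := mem_filter.1 h3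
        exact one_multiple hQ (d := 1) one_pos (by omega) hgd h5 h7 h6 h8 h2 h4
      intro n hn n' hn'
      rcases lt_trichotomy n n' with h2 | h2 | h2
      · exact absurd h2 (key n hn n' hn')
      · exact h2
      · exact absurd h2 (key n' hn' n hn)
    exact_mod_cast h1
  have h1 := h (Nat.gcd a Q).primeFactors 𝒩 (x + Q * y) y 1 1
    (fun N hN => ⟨(mem_filter.1 hN).2.2, (mem_Ioc.1 (mem_filter.1 hN).1).2⟩)
    hX hy le_rfl (by norm_num) le_rfl (fun B hB _ hBP => hone B hB hBP) (fun q hq hqY hqP => hone q hqY (by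
      intro p hp hpp hpq
      have := (Nat.prime_dvd_prime_iff_eq hpp hq).1 hpq
      rw [this] at hp
      exact hqP hp))
  rw [one_mul, one_mul] at h1
  exact h1

end Pool.Agent.D0H92.SI
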