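import Pool.Agent.D0H92.SI.Club

set_option autoImplicit false

/-!
# The averaging step, for the members with a given unitary divisor whose cofactor has an integral abundancy index
-/

namespace Pool.Agent.D0H92.SI

open Finset

open Classical in
/-- Members whose cofactor `C` satisfies `σ(C) ≥ 2 C` have small prime factors. -/
lemma avg (η : ℝ) (hη0 : 0 < η) : ∃ C₃ C₄ : ℝ, 0 < C₃ ∧ 0 < C₄ ∧ ∀ (𝒩 : Finset ℕ) (A X Y : ℕ) (M K' : ℝ),
    16 ≤ X → 1 ≤ Y → 0 ≤ M → 0 ≤ K' →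
    (∀ N ∈ 𝒩, N ≤ X ∧ 0 < N ∧ ∃ C, N = A * C ∧ A.Coprime C ∧ 2 * C ≤ sg C) →
    (∀ q : ℕ, q.Prime → ¬ q ∣ A → q < Y → ((𝒩.filter fun N => q ∣ N).card : ℝ) ≤ M) →
    (∀ q : ℕ, q.Prime → ¬ q ∣ A → Y ≤ q → ((𝒩.filter fun N => q ∣ N).card : ℝ) ≤ K') →
    (𝒩.card : ℝ) ≤ C₃ * (M * (Y : ℝ) ^ η) + C₄ * (K' * Real.log (Real.log (Real.log X))) := by
  obtain ⟨Cm', hCm'⟩ := Pool.Agent.Helper256.KM.mertens_inv
  obtain ⟨Cm, hCmd⟩ : ∃ Cm : ℝ, Cm = max Cm' 0 := ⟨_, rfl⟩
  have hCm0 : 0 ≤ Cm := by rw [hCmd]; exact le_max_right _ _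
  have hCm : ∀ N : ℕ, 3 ≤ N → ∑ p ∈ (Finset.Icc 1 N).filter Nat.Prime, (1 : ℝ) / p ≤ Real.log (Real.log N) + Cm := by
    intro N hN
    have h1 := (abs_le.1 (hCm' N hN)).2
    have h2 : Cm' ≤ Cm := by rw [hCmd]; exact le_max_left _ _
    linarith
  obtain ⟨C₃, hC₃⟩ : ∃ C₃ : ℝ, C₃ = 4 * (Real.log 3 + Cm + 1 / η) := ⟨_, rfl⟩
  have hlog3 : 0 ≤ Real.log 3 := Real.log_nonneg (by norm_num)
  have hC₃0 : 0 < C₃ := by rw [hC₃]; positivity
  obtain ⟨C₄, hC₄⟩ : ∃ C₄ : ℝ, C₄ = 4 * (1 + 200 * (2 + Cm)) := ⟨_, rfl⟩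
  have hC₄0 : 0 < C₄ := by rw [hC₄]; positivity
  refine ⟨C₃, C₄, hC₃0, hC₄0, ?_⟩
  intro 𝒩 A X Y M K' hX hY hM0 hK'0 h𝒩 hcount hK'
  have hXr : (16 : ℝ) ≤ X := by exact_mod_cast hX
  obtain ⟨hl1, hl2, hl3⟩ := lll hXr
  obtain ⟨L, hL⟩ : ∃ L : ℝ, L = Real.log X := ⟨_, rfl⟩
  obtain ⟨ℓ, hℓ⟩ : ∃ ℓ : ℝ, ℓ = Real.log (Real.log (Real.log X)) := ⟨_, rfl⟩
  rw [← hℓ] at hl3 ⊢
  rw [← hL] at hl1 hl2
  have hL0 : 0 < L := by linarith
  obtain ⟨X₁, hX₁⟩ : ∃ X₁ : ℕ, X₁ = ⌈24 * L⌉₊ := ⟨_, rfl⟩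
  have hX₁a : 24 * L ≤ X₁ := by rw [hX₁]; exact Nat.le_ceil _
  have hX₁b : (X₁ : ℝ) ≤ 25 * L := by
    rw [hX₁]
    have := Nat.ceil_lt_add_one (show 0 ≤ 24 * L by positivity)
    linarith
  have hX₁3 : 3 ≤ X₁ := by
    have : (3 : ℝ) ≤ X₁ := by linarith
    exact_mod_cast this
  have hX₁0 : (0 : ℝ) < X₁ := by linarith
  obtain ⟨PP, hPP⟩ : ∃ PP : Finset ℕ, PP = ((Finset.Icc 1 X₁).filter Nat.Prime).filter fun q => ¬ q ∣ A := ⟨_, rfl⟩
  have hYr : (1 : ℝ) ≤ Y := by exact_mod_cast hY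
  have hY0 : (0 : ℝ) < Y := by linarith
  -- the weights of the members
  have hw : ∀ N ∈ 𝒩, (1 / 4 : ℝ) ≤ ∑ q ∈ PP, if q ∣ N then (1 : ℝ) / q else 0 := by
    intro N hN
    obtain ⟨hNX, hN0, D, hD, hAD, hDs⟩ := h𝒩 N hN
    have hD0 : D ≠ 0 := by
      rintro rfl
      rw [mul_zero] at hD; omega
    have hDN : D ∣ N := by rw [hD]; exact dvd_mul_left _ _
    have hDle : D ≤ N := Nat.le_of_dvd hN0 hDN
    have h1 := weight' hD0 hDs
    rw [← sum_filter_add_sum_filter_not D.primeFactors (fun q => q ≤ X₁)] at h1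
    have h2 : ∑ q ∈ D.primeFactors.filter (fun q => ¬ q ≤ X₁), (1 : ℝ) / q ≤ 1 / 12 := by
      calc ∑ q ∈ D.primeFactors.filter (fun q => ¬ q ≤ X₁), (1 : ℝ) / q
          ≤ ∑ q ∈ D.primeFactors.filter (fun q => ¬ q ≤ X₁), (1 : ℝ) / X₁ := by
            refine sum_le_sum fun q hq => ?_
            have hqX := (mem_filter.1 hq).2
            push Not at hqX
            exact one_div_le_one_div_of_le hX₁0 (by exact_mod_cast hqX.le)
        _ = ((D.primeFactors.filter (fun q => ¬ q ≤ X₁)).card : ℝ) * (1 / X₁) := by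
            rw [sum_const, nsmul_eq_mul]
        _ ≤ (2 * L) * (1 / (24 * L)) := by
            apply mul_le_mul _ (one_div_le_one_div_of_le (by positivity) hX₁a) (by positivity) (by positivity)
            have h3 : ((D.primeFactors.filter (fun q => ¬ q ≤ X₁)).card : ℝ) ≤ D.primeFactors.card := by
              exact_mod_cast card_le_card (filter_subset _ _)
            have h4 := Pool.Agent.D0H92.OP.card_le_log hD0
            have h5 : Real.log D ≤ L := by
              rw [hL]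
              exact Real.log_le_log (by exact_mod_cast Nat.pos_of_ne_zero hD0) (by exact_mod_cast hDle.trans hNX)
            linarith
        _ = 1 / 12 := by field_simp; norm_num
    have h3 : ∑ q ∈ D.primeFactors.filter (fun q => q ≤ X₁), (1 : ℝ) / q ≤
        ∑ q ∈ PP, if q ∣ N then (1 : ℝ) / q else 0 := by
      rw [← sum_filter]
      apply sum_le_sum_of_subset_of_nonneg
      · intro q hq
        obtain ⟨h4, h5⟩ := mem_filter.1 hq
        have h6 := Nat.prime_of_mem_primeFactors h4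
        have h7 := Nat.dvd_of_mem_primeFactors h4
        rw [hPP, mem_filter, mem_filter, mem_filter, mem_Icc]
        exact ⟨⟨⟨⟨h6.one_lt.le, h5⟩, h6⟩, fun h => h6.ne_one (Nat.Coprime.eq_one_of_dvd (hAD.coprime_dvd_left h) h7)⟩,
          h7.trans hDN⟩
      · intro q _ _
        positivity
    linarith
  have h1 : (𝒩.card : ℝ) * (1 / 4) ≤ ∑ N ∈ 𝒩, ∑ q ∈ PP, if q ∣ N then (1 : ℝ) / q else 0 := by
    rw [← nsmul_eq_mul, ← sum_const]
    exact sum_le_sum hw
  rw [sum_comm] at h1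
  have h2 : ∀ q ∈ PP, (∑ N ∈ 𝒩, if q ∣ N then (1 : ℝ) / q else 0) =
      ((𝒩.filter fun N => q ∣ N).card : ℝ) * (1 / q) := by
    intro q _
    rw [← sum_filter, sum_const, nsmul_eq_mul]
  rw [sum_congr rfl h2] at h1
  rw [← sum_filter_add_sum_filter_not PP (fun q => q < Y)] at h1
  have h3 : ∑ q ∈ PP.filter (fun q => q < Y), ((𝒩.filter fun N => q ∣ N).card : ℝ) * (1 / q) ≤
      M * ((Real.log 3 + Cm + 1 / η) * (Y : ℝ) ^ η) := by
    have hY3 : 3 ≤ 3 * Y := by omega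
    have hlY : 0 ≤ Real.log Y := Real.log_nonneg hYr
    have hYη : 1 ≤ (Y : ℝ) ^ η := Real.one_le_rpow hYr hη0.le
    calc ∑ q ∈ PP.filter (fun q => q < Y), ((𝒩.filter fun N => q ∣ N).card : ℝ) * (1 / q)
        ≤ ∑ q ∈ PP.filter (fun q => q < Y), M * (1 / q) := by
          refine sum_le_sum fun q hq => ?_
          obtain ⟨h4, h5⟩ := mem_filter.1 hq
          rw [hPP] at h4
          obtain ⟨h6, h7⟩ := mem_filter.1 h4
          exact mul_le_mul_of_nonneg_right (hcount q (mem_filter.1 h6).2 h7 h5) (by positivity)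
      _ = M * ∑ q ∈ PP.filter (fun q => q < Y), (1 : ℝ) / q := by rw [mul_sum]
      _ ≤ M * ∑ q ∈ (Finset.Icc 1 (3 * Y)).filter Nat.Prime, (1 : ℝ) / q := by
          apply mul_le_mul_of_nonneg_left _ (by positivity)
          apply sum_le_sum_of_subset_of_nonneg
          · intro q hq
            obtain ⟨h4, h5⟩ := mem_filter.1 hq
            rw [hPP, mem_filter, mem_filter, mem_Icc] at h4
            rw [mem_filter, mem_Icc]
            exact ⟨⟨h4.1.1.1, by omega⟩, h4.1.2⟩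
          · intro q _ _
            positivity
      _ ≤ M * ((Real.log 3 + Cm + 1 / η) * (Y : ℝ) ^ η) := by
          apply mul_le_mul_of_nonneg_left _ (by positivity)
          refine (hCm (3 * Y) hY3).trans ?_
          push_cast
          have h6 : Real.log (3 * (Y : ℝ)) = Real.log 3 + Real.log Y :=
            Real.log_mul (by norm_num) hY0.ne'
          have h7 : 0 < Real.log (3 * (Y : ℝ)) := Real.log_pos (by linarith)
          have h8 := Real.log_le_sub_one_of_pos h7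
          have h9 : Real.log Y ≤ (Y : ℝ) ^ η / η := Real.log_le_rpow_div hY0.le hη0
          have h10 : Real.log 3 + Cm ≤ (Real.log 3 + Cm) * (Y : ℝ) ^ η := by
            nlinarith
          have h11 : (Y : ℝ) ^ η / η = 1 / η * (Y : ℝ) ^ η := by ring
          nlinarith
  have h4 : ∑ q ∈ PP.filter (fun q => ¬ q < Y), ((𝒩.filter fun N => q ∣ N).card : ℝ) * (1 / q) ≤
      K' * (ℓ + (2 + Cm)) := by
    calc ∑ q ∈ PP.filter (fun q => ¬ q < Y), ((𝒩.filter fun N => q ∣ N).card : ℝ) * (1 / q)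
        ≤ ∑ q ∈ PP.filter (fun q => ¬ q < Y), K' * (1 / q) := by
          refine sum_le_sum fun q hq => ?_
          obtain ⟨h4, h5⟩ := mem_filter.1 hq
          rw [hPP] at h4
          obtain ⟨h6, h7⟩ := mem_filter.1 h4
          exact mul_le_mul_of_nonneg_right (hK' q (mem_filter.1 h6).2 h7 (by omega)) (by positivity)
      _ = K' * ∑ q ∈ PP.filter (fun q => ¬ q < Y), (1 : ℝ) / q := by rw [mul_sum]
      _ ≤ K' * ∑ q ∈ PP, (1 : ℝ) / q := by
          apply mul_le_mul_of_nonneg_left _ hK'0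
          exact sum_le_sum_of_subset_of_nonneg (filter_subset _ _) fun q _ _ => by positivity
      _ ≤ K' * (ℓ + (2 + Cm)) := by
          apply mul_le_mul_of_nonneg_left _ hK'0
          rw [hPP]
          refine (sum_le_sum_of_subset_of_nonneg (filter_subset _ _) fun q _ _ => by positivity).trans ?_
          refine (hCm X₁ hX₁3).trans ?_
          have h5 : Real.log X₁ ≤ Real.log 25 + Real.log L := by
            rw [← Real.log_mul (by norm_num) hL0.ne']
            exact Real.log_le_log hX₁0 hX₁b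
          have h6 : Real.log 25 ≤ 4 := by
            rw [Real.log_le_iff_le_exp (by norm_num)]
            have h7 : Real.exp 4 = (Real.exp 1) ^ 4 := by rw [← Real.exp_nat_mul]; norm_num
            rw [h7]
            have h8 := Real.exp_one_gt_d9
            have h9 : (2.7 : ℝ) ^ 4 ≤ (Real.exp 1) ^ 4 := pow_le_pow_left₀ (by norm_num) (by linarith) 4
            norm_num at h9 ⊢
            linarith
          have h7 : Real.log X₁ ≤ 5 * Real.log L := by linarith
          have h8 : Real.log (Real.log X₁) ≤ Real.log 5 + Real.log (Real.log L) := by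
            rw [← Real.log_mul (by norm_num) (by linarith)]
            apply Real.log_le_log _ h7
            apply Real.log_pos
            have : (3 : ℝ) ≤ X₁ := by exact_mod_cast hX₁3
            linarith
          have h9 : Real.log 5 ≤ 2 := by
            rw [Real.log_le_iff_le_exp (by norm_num)]
            have h7 : Real.exp 2 = (Real.exp 1) ^ 2 := by rw [← Real.exp_nat_mul]; norm_num
            rw [h7]
            have h8 := Real.exp_one_gt_d9
            nlinarith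
          rw [hℓ, ← hL]
          linarith
  have h5 : ℓ + (2 + Cm) ≤ (1 + 200 * (2 + Cm)) * ℓ := by nlinarith
  have h6 := mul_le_mul_of_nonneg_left h5 hK'0
  have h8 : C₃ * (M * (Y : ℝ) ^ η) = 4 * (M * ((Real.log 3 + Cm + 1 / η) * (Y : ℝ) ^ η)) := by rw [hC₃]; ring
  have h9 : C₄ * (K' * ℓ) = 4 * (K' * ((1 + 200 * (2 + Cm)) * ℓ)) := by rw [hC₄]; ring
  rw [h8, h9]
  linarith

end Pool.Agent.D0H92.SI
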