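import Pool.Agent.D0H92.SI.Main

set_option autoImplicit false

/-!
# The criterion with a set of exceptional primes
-/

namespace Pool.Agent.D0H92.SI

open Finset

/-- `A₀ A` is a unitary divisor of `N`, and the primes in `P` divide neither `A` nor the cofactor -/
def UP (P : Finset ℕ) (A₀ A N : ℕ) : Prop :=
  ∃ C, N = A₀ * A * C ∧ (A₀ * A).Coprime C ∧ A₀.Coprime A ∧ ∀ p ∈ P, p.Prime → ¬ p ∣ A * C

section count
open Classical

variable {ε c : ℝ} {T : ℕ} {P 𝒩 : Finset ℕ} {Y : ℕ} {K : ℝ}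

/-- one step of the recursion -/
lemma stepP (h𝒩 : ∀ N ∈ 𝒩, N.Perfect)
    (hK : ∀ B : ℕ, Y ≤ B → B < 2 * Y ^ 2 → (∀ p ∈ P, p.Prime → ¬ p ∣ B) → ((𝒩.filter fun N => B ∣ N).card : ℝ) ≤ K)
    {A₀ A p : ℕ} (hA : 1 ≤ A) (hAY : A < Y) (hAP : ∀ r ∈ P, r.Prime → ¬ r ∣ A) (hp : p.Prime) (hpP : p ∉ P)
    (hpA : ¬ p ∣ A₀ * A) (hpY : p < 2 * Y) :
    ∃ n : ℕ, (∀ e ∈ Icc 1 n, A * p ^ e < Y) ∧ ((𝒩.filter fun N => UP P A₀ A N ∧ p ∣ N).card : ℝ) ≤
      K + ∑ e ∈ Icc 1 n, ((𝒩.filter fun N => UP P A₀ (A * p ^ e) N).card : ℝ) := by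
  have hex : ∃ f, Y ≤ A * p ^ f := by
    refine ⟨Y, ?_⟩
    have h1 : Y < p ^ Y := Nat.lt_pow_self hp.one_lt
    calc Y ≤ 1 * p ^ Y := by omega
      _ ≤ A * p ^ Y := Nat.mul_le_mul_right _ hA
  obtain ⟨f, hf, hmin⟩ : ∃ f, Y ≤ A * p ^ f ∧ ∀ e < f, A * p ^ e < Y := by
    refine ⟨Nat.find hex, Nat.find_spec hex, fun e he => ?_⟩
    have := Nat.find_min hex he
    omega
  have hf1 : 1 ≤ f := by
    rcases Nat.eq_zero_or_pos f with h0 | h0
    · rw [h0, pow_zero, mul_one] at hf; omega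
    · exact h0
  have hB : A * p ^ f < 2 * Y ^ 2 := by
    have h1 := hmin (f - 1) (by omega)
    have h2 : A * p ^ f = (A * p ^ (f - 1)) * p := by
      rw [mul_assoc, ← pow_succ, Nat.sub_add_cancel hf1]
    rw [h2]
    have hY0 : 0 < Y := by omega
    calc A * p ^ (f - 1) * p ≤ Y * p := Nat.mul_le_mul_right _ h1.le
      _ < Y * (2 * Y) := Nat.mul_lt_mul_of_pos_left hpY hY0
      _ = 2 * Y ^ 2 := by ring
  have hBP : ∀ r ∈ P, r.Prime → ¬ r ∣ A * p ^ f := by
    intro r hr hrp h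
    rcases hrp.dvd_mul.1 h with h | h
    · exact hAP r hr hrp h
    · have := (Nat.prime_dvd_prime_iff_eq hrp hp).1 (hrp.dvd_of_dvd_pow h)
      rw [this] at hr
      exact hpP hr
  refine ⟨f - 1, fun e he => hmin e (by have := mem_Icc.1 he; omega), ?_⟩
  have hsub : (𝒩.filter fun N => UP P A₀ A N ∧ p ∣ N) ⊆ (𝒩.filter fun N => A * p ^ f ∣ N) ∪
      (Icc 1 (f - 1)).biUnion fun e => 𝒩.filter fun N => UP P A₀ (A * p ^ e) N := by
    intro N hN
    obtain ⟨hN1, ⟨C, hC, hAC, hAA, hPC⟩, hpN⟩ := mem_filter.1 hN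
    have hN0 : 0 < N := (h𝒩 N hN1).2
    have hC0 : C ≠ 0 := by
      rintro rfl
      rw [mul_zero] at hC; omega
    obtain ⟨e, C', hC', hCe⟩ := Nat.exists_eq_pow_mul_and_not_dvd hC0 p hp.ne_one
    rw [mem_union, mem_biUnion]
    by_cases hef : f ≤ e
    · left
      rw [mem_filter]
      refine ⟨hN1, ?_⟩
      rw [hC, hCe, mul_assoc]
      exact (Nat.mul_dvd_mul_left A ((pow_dvd_pow p hef).mul_right C')).mul_left A₀
    · right
      have he1 : 1 ≤ e := by
        rcases Nat.eq_zero_or_pos e with h0 | h0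
        · exfalso
          rw [h0, pow_zero, one_mul] at hCe
          rw [hC] at hpN
          rcases hp.dvd_mul.1 hpN with h | h
          · exact hpA h
          · rw [hCe] at h; exact hC' h
        · exact h0
      refine ⟨e, mem_Icc.2 ⟨he1, by omega⟩, mem_filter.2 ⟨hN1, C', ?_, ?_, ?_, ?_⟩⟩
      · rw [hC, hCe]; ring
      · have h1 : (A₀ * A).Coprime C' := hAC.coprime_dvd_right (by rw [hCe]; exact dvd_mul_left _ _)
        have h2 : (p ^ e).Coprime C' := Nat.Coprime.pow_left e ((Nat.Prime.coprime_iff_not_dvd hp).2 hC')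
        rw [← mul_assoc]
        exact Nat.Coprime.mul_left h1 h2
      · apply Nat.Coprime.mul_right hAA
        apply Nat.Coprime.pow_right
        rw [Nat.coprime_comm, Nat.Prime.coprime_iff_not_dvd hp]
        exact fun h => hpA (h.mul_right A)
      · intro r hr hrp h
        apply hPC r hr hrp
        rw [hCe]
        have h3 : A * p ^ e * C' = A * (p ^ e * C') := by ring
        rwa [h3] at h
  have h1 := card_le_card hsub
  have h2 := card_union_le (𝒩.filter fun N => A * p ^ f ∣ N)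
    ((Icc 1 (f - 1)).biUnion fun e => 𝒩.filter fun N => UP P A₀ (A * p ^ e) N)
  have h3 := card_biUnion_le (s := Icc 1 (f - 1)) (t := fun e => 𝒩.filter fun N => UP P A₀ (A * p ^ e) N)
  have h4 : ((𝒩.filter fun N => UP P A₀ A N ∧ p ∣ N).card : ℝ) ≤ ((𝒩.filter fun N => A * p ^ f ∣ N).card : ℝ) +
      ∑ e ∈ Icc 1 (f - 1), ((𝒩.filter fun N => UP P A₀ (A * p ^ e) N).card : ℝ) := by
    exact_mod_cast h1.trans (h2.trans (Nat.add_le_add_left h3 _))
  have h5 := hK (A * p ^ f) hf hB hBP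
  linarith

lemma one_le_W (hε : 0 < ε) (hc1 : 1 ≤ c) {A : ℕ} (hA : 1 ≤ A) (hAY : A < Y) : 1 ≤ (Y : ℝ) ^ ε * wt ε c T A := by
  have hA0 : (0 : ℝ) < A := by exact_mod_cast hA
  have h1 : (1 : ℝ) ≤ (Y : ℝ) ^ ε * (A : ℝ) ^ (-ε) := by
    rw [Real.rpow_neg hA0.le, ← div_eq_mul_inv, one_le_div (by positivity)]
    exact Real.rpow_le_rpow hA0.le (by exact_mod_cast hAY.le) hε.le
  have h2 : (1 : ℝ) ≤ c ^ sm T A := one_le_pow₀ hc1
  unfold wt
  nlinarith

/-- the number of the members with the unitary divisor `A₀ A` -/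
theorem count_UP (h𝒩 : ∀ N ∈ 𝒩, N.Perfect) (hε : 0 < ε) (hc1 : 1 ≤ c) (hc : 2 / ((2 : ℝ) ^ ε - 1) ≤ c)
    (hT : (3 : ℝ) ≤ (T : ℝ) ^ ε) (hK1 : 1 ≤ K)
    (hK : ∀ B : ℕ, Y ≤ B → B < 2 * Y ^ 2 → (∀ p ∈ P, p.Prime → ¬ p ∣ B) → ((𝒩.filter fun N => B ∣ N).card : ℝ) ≤ K)
    (hK' : ∀ q : ℕ, q.Prime → Y ≤ q → q ∉ P → ((𝒩.filter fun N => q ∣ N).card : ℝ) ≤ K) (A₀ : ℕ) :
    ∀ m A : ℕ, Y - A ≤ m → 1 ≤ A → 1 < A₀ * A → A < Y →
      ((𝒩.filter fun N => UP P A₀ A N).card : ℝ) ≤ K * (2 * ((Y : ℝ) ^ ε * wt ε c T A) - 1) := by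
  intro m
  induction m with
  | zero => intro A h1 h2 h3 h4; omega
  | succ m ih =>
    intro A hm hA hA1 hAY
    have hW := one_le_W (T := T) hε hc1 hA hAY
    have hKW1 : K ≤ K * (2 * ((Y : ℝ) ^ ε * wt ε c T A) - 1) := by nlinarith
    have hKW : (1 : ℝ) ≤ K * (2 * ((Y : ℝ) ^ ε * wt ε c T A) - 1) := by linarith
    by_cases hPf : (A₀ * A).Perfect
    · -- only `A₀ A` itself
      have h1 : (𝒩.filter fun N => UP P A₀ A N) ⊆ {A₀ * A} := by
        intro N hN
        obtain ⟨hN1, C, hC, hAC, -, -⟩ := mem_filter.1 hN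
        rw [mem_singleton, hC]
        have hN0 : 0 < N := (h𝒩 N hN1).2
        have hC0 : C ≠ 0 := by
          rintro rfl
          rw [mul_zero] at hC; omega
        by_contra hne
        have hC1 : 1 < C := by
          rcases (show C = 1 ∨ 1 < C by omega) with h | h
          · rw [h, mul_one] at hne; exact absurd rfl hne
          · exact h
        have h2 : sg (A₀ * A) * sg C = 2 * (A₀ * A * C) := by
          rw [← sg_mul hAC, ← hC]; exact sg_perfect (h𝒩 N hN1)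
        rw [sg_perfect hPf] at h2
        have h3 := lt_sg hC1
        have h4 : 2 * (A₀ * A) * C < 2 * (A₀ * A) * sg C := Nat.mul_lt_mul_of_pos_left h3 (by omega)
        nlinarith
      have h2 : ((𝒩.filter fun N => UP P A₀ A N).card : ℝ) ≤ 1 := by
        exact_mod_cast (card_le_card h1).trans (by simp)
      linarith
    · rcases (𝒩.filter fun N => UP P A₀ A N).eq_empty_or_nonempty with h0 | ⟨N₀, hN₀⟩
      · rw [h0, card_empty, Nat.cast_zero]; linarith
      · have hgood : ∀ N ∈ 𝒩.filter (fun N => UP P A₀ A N), (nxt (A₀ * A)).Prime ∧ ¬ nxt (A₀ * A) ∣ A₀ * A ∧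
            nxt (A₀ * A) ∣ N ∧ nxt (A₀ * A) ∉ P ∧ ∀ r ∈ P, r.Prime → ¬ r ∣ A := by
          intro N hN
          obtain ⟨hN1, C, hC, hAC, hAA, hPC⟩ := mem_filter.1 hN
          have hN0 : 0 < N := (h𝒩 N hN1).2
          have hC0 : C ≠ 0 := by
            rintro rfl
            rw [mul_zero] at hC; omega
          have hC1 : 1 < C := by
            rcases (show C = 1 ∨ 1 < C by omega) with h | h
            · rw [h, mul_one] at hC
              rw [← hC] at hPf
              exact absurd (h𝒩 N hN1) hPf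
            · exact h
          have hPN : (A₀ * A * C).Perfect := by rw [← hC]; exact h𝒩 N hN1
          obtain ⟨h1, h2, h3⟩ := nxt_spec hPN hAC hA1 hC1
          refine ⟨h1, fun h => ?_, by rw [hC]; exact h2.mul_left _, fun h => hPC _ h h1 (h2.mul_left A), ?_⟩
          · have := Nat.Coprime.eq_one_of_dvd (hAC.coprime_dvd_left h) h2
            exact h1.ne_one this
          · intro r hr hrp h
            exact hPC r hr hrp (h.mul_right C)
        obtain ⟨hp, hpA, -, hpP, hAP⟩ := hgood N₀ hN₀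
        have heq : (𝒩.filter fun N => UP P A₀ A N) = 𝒩.filter fun N => UP P A₀ A N ∧ nxt (A₀ * A) ∣ N := by
          apply Subset.antisymm
          · intro N hN
            exact mem_filter.2 ⟨(mem_filter.1 hN).1, (mem_filter.1 hN).2, (hgood N hN).2.2.1⟩
          · intro N hN
            exact mem_filter.2 ⟨(mem_filter.1 hN).1, (mem_filter.1 hN).2.1⟩
        rw [heq]
        obtain ⟨p, hpp⟩ : ∃ p, p = nxt (A₀ * A) := ⟨_, rfl⟩
        rw [← hpp] at hp hpA hpP ⊢
        by_cases hpY : p < 2 * Y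
        · obtain ⟨n, hn, hle⟩ := stepP (A₀ := A₀) h𝒩 hK hA hAY hAP hp hpP hpA hpY
          have hpA' : ¬ p ∣ A := fun h => hpA (h.mul_left A₀)
          have h1 : ∑ e ∈ Icc 1 n, ((𝒩.filter fun N => UP P A₀ (A * p ^ e) N).card : ℝ) ≤
              ∑ e ∈ Icc 1 n, K * (2 * ((Y : ℝ) ^ ε * wt ε c T (A * p ^ e)) - 1) := by
            refine sum_le_sum fun e he => ?_
            have he1 := (mem_Icc.1 he).1
            have h2 : 1 < p ^ e := Nat.one_lt_pow (by omega) hp.one_lt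
            have h3 : A < A * p ^ e := (Nat.lt_mul_iff_one_lt_right (by omega)).2 h2
            have h4 := hn e he
            apply ih _ (by omega) (by omega) _ h4
            rw [← mul_assoc]
            exact lt_of_lt_of_le hA1 (Nat.le_mul_of_pos_right _ (by omega))
          have h2 : ∑ e ∈ Icc 1 n, K * (2 * ((Y : ℝ) ^ ε * wt ε c T (A * p ^ e)) - 1) =
              K * (2 * (Y : ℝ) ^ ε * ∑ e ∈ Icc 1 n, wt ε c T (A * p ^ e) - n) := by
            rw [← mul_sum, sum_sub_distrib, sum_const, Nat.card_Icc, mul_sum]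
            simp only [nsmul_eq_mul, mul_one, Nat.add_sub_cancel]
            congr 2
            refine sum_congr rfl fun e _ => ?_
            ring
          have h3 := wt_sum hε hc1 hc hT hA hp hpA' n
          have hY0 : (0 : ℝ) < Y := by exact_mod_cast (by omega : 0 < Y)
          have hYε : 0 < (Y : ℝ) ^ ε := by positivity
          have h4 : 2 * (Y : ℝ) ^ ε * ∑ e ∈ Icc 1 n, wt ε c T (A * p ^ e) ≤ (Y : ℝ) ^ ε * wt ε c T A := by
            nlinarith
          rcases Nat.eq_zero_or_pos n with h0 | h0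
          · rw [h0] at hle
            simp only [show Icc 1 0 = (∅ : Finset ℕ) from rfl, sum_empty, add_zero] at hle
            linarith
          · have hn1 : (1 : ℝ) ≤ n := by exact_mod_cast h0
            rw [h2] at h1
            have h5 : K * (2 * (Y : ℝ) ^ ε * ∑ e ∈ Icc 1 n, wt ε c T (A * p ^ e) - n) ≤
                K * ((Y : ℝ) ^ ε * wt ε c T A - 1) := by
              apply mul_le_mul_of_nonneg_left _ (by linarith)
              linarith
            nlinarith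
        · have hss : (𝒩.filter fun N => UP P A₀ A N ∧ p ∣ N) ⊆ 𝒩.filter fun N => p ∣ N := by
            intro N hN
            exact mem_filter.2 ⟨(mem_filter.1 hN).1, (mem_filter.1 hN).2.2⟩
          have h1 : ((𝒩.filter fun N => UP P A₀ A N ∧ p ∣ N).card : ℝ) ≤ ((𝒩.filter fun N => p ∣ N).card : ℝ) := by
            exact_mod_cast card_le_card hss
          have h2 := hK' p hp (by omega) hpP
          linarith

end count

/-- the part of `N` composed of the primes in a set -/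
lemma part (P : Finset ℕ) (hP : ∀ p ∈ P, p.Prime) {N : ℕ} (hN : N ≠ 0) :
    ∃ C, N = (∏ p ∈ P, p ^ N.factorization p) * C ∧ (∏ p ∈ P, p ^ N.factorization p).Coprime C ∧ ∀ p ∈ P, ¬ p ∣ C := by
  have h1 : ∏ p ∈ N.primeFactors, p ^ N.factorization p = N := Nat.prod_factorization_pow_eq_self hN
  have h2 : ∏ p ∈ N.primeFactors.filter (fun p => p ∈ P), p ^ N.factorization p = ∏ p ∈ P, p ^ N.factorization p := by
    apply prod_subset
    · intro p hp
      exact (mem_filter.1 hp).2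
    · intro p hp hp2
      have h3 : p ∉ N.primeFactors := fun h => hp2 (mem_filter.2 ⟨h, hp⟩)
      have h4 : N.factorization p = 0 := by
        rw [← Nat.support_factorization, Finsupp.notMem_support_iff] at h3
        exact h3
      rw [h4, pow_zero]
  have h5 : ∀ p ∈ P, ¬ p ∣ ∏ p ∈ N.primeFactors.filter (fun p => ¬ p ∈ P), p ^ N.factorization p := by
    intro p hp h
    obtain ⟨r, hr, hpr⟩ := (Prime.dvd_finsetProd_iff (hP p hp).prime _).1 h
    have hr1 := mem_filter.1 hr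
    have hr2 := Nat.prime_of_mem_primeFactors hr1.1
    have := (Nat.prime_dvd_prime_iff_eq (hP p hp) hr2).1 ((hP p hp).dvd_of_dvd_pow hpr)
    rw [this] at hp
    exact hr1.2 hp
  refine ⟨∏ p ∈ N.primeFactors.filter (fun p => ¬ p ∈ P), p ^ N.factorization p, ?_, ?_, h5⟩
  · rw [← h2, prod_filter_mul_prod_filter_not, h1]
  · apply Nat.Coprime.prod_left
    intro p hp
    apply Nat.Coprime.pow_left
    exact (Nat.Prime.coprime_iff_not_dvd (hP p hp)).2 (h5 p hp)

open Classical in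
/-- **The criterion with exceptional primes.** -/
theorem critP (ε : ℝ) (hε : 0 < ε) : ∃ C : ℝ, 0 < C ∧ ∀ (P 𝒩 : Finset ℕ) (X Y : ℕ) (K K' : ℝ),
    (∀ N ∈ 𝒩, N.Perfect ∧ N ≤ X) → 16 ≤ X → 1 ≤ Y → 1 ≤ K → 0 ≤ K' → K' ≤ K →
    (∀ B : ℕ, Y ≤ B → B < 2 * Y ^ 2 → (∀ p ∈ P, p.Prime → ¬ p ∣ B) → ((𝒩.filter fun N => B ∣ N).card : ℝ) ≤ K) →
    (∀ q : ℕ, q.Prime → Y ≤ q → q ∉ P → ((𝒩.filter fun N => q ∣ N).card : ℝ) ≤ K') →
    (𝒩.card : ℝ) ≤ C * (3 * Real.log X) ^ P.card * (K * (Y : ℝ) ^ ε + K' * Real.log (Real.log (Real.log X))) := by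
  obtain ⟨C₁, hC₁0, hC₁⟩ := crit ε hε
  obtain ⟨c, hc⟩ : ∃ c : ℝ, c = max 1 (2 / ((2 : ℝ) ^ ε - 1)) := ⟨_, rfl⟩
  have hc1 : 1 ≤ c := by rw [hc]; exact le_max_left _ _
  have hc2 : 2 / ((2 : ℝ) ^ ε - 1) ≤ c := by rw [hc]; exact le_max_right _ _
  obtain ⟨T, hT⟩ : ∃ T : ℕ, (3 : ℝ) ≤ (T : ℝ) ^ ε := by
    have h1 : Filter.Tendsto (fun n : ℕ => (n : ℝ) ^ ε) Filter.atTop Filter.atTop :=
      (tendsto_rpow_atTop hε).comp tendsto_natCast_atTop_atTop
    exact (h1.eventually_ge_atTop 3).exists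
  obtain ⟨C₂, hC₂⟩ : ∃ C₂ : ℝ, C₂ = 2 * c ^ sm T 1 := ⟨_, rfl⟩
  have hcp : (1 : ℝ) ≤ c ^ sm T 1 := one_le_pow₀ hc1
  have hC₂1 : 1 ≤ C₂ := by rw [hC₂]; linarith
  refine ⟨C₁ + C₂, by positivity, ?_⟩
  intro P 𝒩 X Y K K' h𝒩 hX hY hK1 hK'0 hKK hK hK'
  have hXr : (16 : ℝ) ≤ X := by exact_mod_cast hX
  obtain ⟨hl1, hl2, hl3⟩ := lll hXr
  obtain ⟨ℓ, hℓ⟩ : ∃ ℓ : ℝ, ℓ = Real.log (Real.log (Real.log X)) := ⟨_, rfl⟩
  rw [← hℓ] at hl3 ⊢
  have hYr : (1 : ℝ) ≤ Y := by exact_mod_cast hY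
  have hYε : 1 ≤ (Y : ℝ) ^ ε := Real.one_le_rpow hYr hε.le
  obtain ⟨E, hE⟩ : ∃ E : ℝ, E = K * (Y : ℝ) ^ ε + K' * ℓ := ⟨_, rfl⟩
  have hK'ℓ : 0 ≤ K' * ℓ := mul_nonneg hK'0 (by linarith)
  have hKE : K * (Y : ℝ) ^ ε ≤ E := by rw [hE]; linarith
  have hKY : K ≤ K * (Y : ℝ) ^ ε := by nlinarith
  have hE0 : 0 ≤ E := by linarith
  rw [← hE]
  have hlog1 : (1 : ℝ) ≤ 3 * Real.log X := by linarith
  have hpow1 : (1 : ℝ) ≤ (3 * Real.log X) ^ P.card := one_le_pow₀ hlog1
  by_cases hY1 : Y = 1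
  · -- trivial case
    have h1 := hK 1 (by omega) (by rw [hY1]; norm_num) (fun p _ hp h => hp.one_lt.ne' (Nat.dvd_one.1 h))
    have h2 : (𝒩.filter fun N => 1 ∣ N) = 𝒩 := filter_true_of_mem fun N _ => one_dvd N
    rw [h2] at h1
    have h3 : K ≤ E := hKY.trans hKE
    have h4 : E ≤ (C₁ + C₂) * (3 * Real.log X) ^ P.card * E := by
      have h5 : (1 : ℝ) ≤ (C₁ + C₂) * (3 * Real.log X) ^ P.card := by nlinarith
      nlinarith
    linarith
  have hY2 : 1 < Y := by omega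
  set P' := P.filter Nat.Prime with hP'
  have hP'p : ∀ p ∈ P', p.Prime := fun p hp => (mem_filter.1 hp).2
  set g : ℕ → (P' → ℕ) := fun N p => N.factorization p with hg
  obtain ⟨n, hn⟩ : ∃ n : ℕ, n = ⌊(C₁ + C₂) * E⌋₊ := ⟨_, rfl⟩
  have hfib : ∀ a ∈ 𝒩.image g, (𝒩.filter fun N => g N = a).card ≤ n := by
    intro a ha
    rw [hn, Nat.le_floor_iff (by positivity)]
    obtain ⟨N₁, hN₁, hga⟩ := mem_image.1 ha
    obtain ⟨A₀, hA₀⟩ : ∃ A₀ : ℕ, A₀ = ∏ p ∈ P', p ^ N₁.factorization p := ⟨_, rfl⟩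
    have hpart : ∀ N ∈ 𝒩.filter (fun N => g N = a), ∏ p ∈ P', p ^ N.factorization p = A₀ := by
      intro N hN
      rw [hA₀]
      refine prod_congr rfl fun p hp => ?_
      have h1 := congrFun ((mem_filter.1 hN).2.trans hga.symm) ⟨p, hp⟩
      have h2 : N.factorization p = N₁.factorization p := h1
      rw [h2]
    by_cases hA1 : A₀ = 1
    · -- members coprime to the exceptional primes
      set 𝒩₁ := 𝒩.filter fun N => g N = a with h𝒩₁
      have hcop : ∀ N ∈ 𝒩₁, ∀ p ∈ P, p.Prime → ¬ p ∣ N := by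
        intro N hN p hp hpp hpN
        have hN' := (h𝒩 N (mem_filter.1 hN).1).1
        obtain ⟨C, hC, -, hCp⟩ := part P' hP'p hN'.2.ne'
        rw [hpart N hN, hA1, one_mul] at hC
        rw [hC] at hpN
        exact hCp p (mem_filter.2 ⟨hp, hpp⟩) hpN
      have hbase := hC₁ 𝒩₁ X Y K K' (fun N hN => h𝒩 N (mem_filter.1 hN).1) hX hY hK1 hK'0 (by
        intro B hB hB2
        by_cases hBP : ∀ p ∈ P, p.Prime → ¬ p ∣ B
        · refine le_trans ?_ (hK B hB hB2 hBP)
          exact_mod_cast card_le_card (filter_subset_filter _ (filter_subset _ _))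
        · push Not at hBP
          obtain ⟨p, hp, hpp, hpB⟩ := hBP
          have h1 : (𝒩₁.filter fun N => B ∣ N) = ∅ := by
            rw [filter_eq_empty_iff]
            intro N hN h
            exact hcop N hN p hp hpp (hpB.trans h)
          rw [h1, card_empty, Nat.cast_zero]
          linarith) (by
        intro q hq hqY
        by_cases hqP : q ∈ P
        · have h1 : (𝒩₁.filter fun N => q ∣ N) = ∅ := by
            rw [filter_eq_empty_iff]
            intro N hN h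
            exact hcop N hN q hqP hq h
          rw [h1, card_empty, Nat.cast_zero]
          exact hK'0
        · refine le_trans ?_ (hK' q hq hqY hqP)
          exact_mod_cast card_le_card (filter_subset_filter _ (filter_subset _ _)))
      rw [← hℓ, ← hE] at hbase
      refine hbase.trans ?_
      nlinarith
    · -- the recursion
      have hN₁0 : N₁ ≠ 0 := (h𝒩 N₁ hN₁).1.2.ne'
      have hA₀pos : 0 < A₀ := by
        rw [hA₀]
        exact prod_pos fun p hp => pow_pos (hP'p p hp).pos _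
      have hsub : (𝒩.filter fun N => g N = a) ⊆ 𝒩.filter fun N => UP P A₀ 1 N := by
        intro N hN
        have hNm := (mem_filter.1 hN).1
        obtain ⟨C, hC, hC1, hC2⟩ := part P' hP'p (h𝒩 N hNm).1.2.ne'
        rw [hpart N hN] at hC hC1
        refine mem_filter.2 ⟨hNm, C, by rw [mul_one]; exact hC, by rw [mul_one]; exact hC1, Nat.coprime_one_right A₀, ?_⟩
        intro p hp hpp h
        rw [one_mul] at h
        exact hC2 p (mem_filter.2 ⟨hp, hpp⟩) h
      have hrec := count_UP (T := T) (fun N hN => (h𝒩 N hN).1) hε hc1 hc2 hT hK1 hK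
        (fun q hq hqY hqP => (hK' q hq hqY hqP).trans hKK) A₀ (Y - 1) 1 le_rfl le_rfl (by omega) hY2
      have h1 : ((𝒩.filter fun N => g N = a).card : ℝ) ≤ ((𝒩.filter fun N => UP P A₀ 1 N).card : ℝ) := by
        exact_mod_cast card_le_card hsub
      have h3 : wt ε c T 1 = c ^ sm T 1 := by
        unfold wt
        rw [Nat.cast_one, Real.one_rpow, one_mul]
      rw [h3] at hrec
      have h4 : K * (2 * ((Y : ℝ) ^ ε * c ^ sm T 1) - 1) ≤ C₂ * (K * (Y : ℝ) ^ ε) := by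
        rw [hC₂]; nlinarith
      have h5 : C₂ * (K * (Y : ℝ) ^ ε) ≤ C₂ * E := mul_le_mul_of_nonneg_left hKE (by linarith)
      have h6 : C₂ * E ≤ (C₁ + C₂) * E := by nlinarith
      linarith
  have h1 := card_le_mul_card_image (f := g) 𝒩 n hfib
  have h2 : (𝒩.image g).card ≤ (Nat.log 2 X + 1) ^ P.card := by
    have h3 : 𝒩.image g ⊆ Fintype.piFinset fun _ : P' => range (Nat.log 2 X + 1) := by
      intro a ha
      obtain ⟨N, hN, rfl⟩ := mem_image.1 ha
      rw [Fintype.mem_piFinset]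
      intro p
      rw [mem_range]
      have hN0 := (h𝒩 N hN).1.2.ne'
      have h4 : (p : ℕ) ^ N.factorization p ≤ N := Nat.ordProj_le p hN0
      have h5 : 2 ^ N.factorization p ≤ X :=
        (Nat.pow_le_pow_left (hP'p p p.2).two_le _).trans (h4.trans (h𝒩 N hN).2)
      have h6 : N.factorization p ≤ Nat.log 2 X := Nat.le_log_of_pow_le (by norm_num) h5
      show N.factorization p < Nat.log 2 X + 1
      omega
    refine (card_le_card h3).trans ?_
    rw [Fintype.card_piFinset, prod_const, card_range, card_univ, Fintype.card_coe]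
    exact Nat.pow_le_pow_right (by omega) (card_le_card (filter_subset _ _))
  have h3 : (𝒩.card : ℝ) ≤ n * ((Nat.log 2 X + 1 : ℕ) : ℝ) ^ P.card := by
    exact_mod_cast h1.trans (Nat.mul_le_mul_left _ h2)
  have h4 : (n : ℝ) ≤ (C₁ + C₂) * E := by rw [hn]; exact Nat.floor_le (by positivity)
  have h5 : ((Nat.log 2 X + 1 : ℕ) : ℝ) ≤ 3 * Real.log X := by
    have h6 : (2 : ℝ) ^ Nat.log 2 X ≤ X := by exact_mod_cast Nat.pow_log_le_self 2 (by omega)
    have h7 := Real.log_le_log (by positivity) h6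
    rw [Real.log_pow] at h7
    have h8 := Real.log_two_gt_d9
    have h9 : (Nat.log 2 X : ℝ) * (1 / 2) ≤ Real.log X := by
      refine le_trans ?_ h7
      apply mul_le_mul_of_nonneg_left (by linarith) (Nat.cast_nonneg _)
    push_cast
    linarith
  calc (𝒩.card : ℝ) ≤ n * ((Nat.log 2 X + 1 : ℕ) : ℝ) ^ P.card := h3
    _ ≤ ((C₁ + C₂) * E) * (3 * Real.log X) ^ P.card :=
        mul_le_mul h4 (pow_le_pow_left₀ (Nat.cast_nonneg _) h5 _) (by positivity) (by positivity)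
    _ = _ := by ring

end Pool.Agent.D0H92.SI
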