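import Pool.Agent.D0H92.SI.Main

set_option autoImplicit false

/-!
# Integers with a given abundancy index in short intervals
-/

namespace Pool.Agent.D0H92.SI

open Finset

/-- `σ(n) / n = a / b` -/
def Ab (a b n : ℕ) : Prop := b * sg n = a * n ∧ 0 < n

/-- the next prime -/
def nxa (a b A : ℕ) : ℕ := (b * sg A / Nat.gcd (b * sg A) (a * A)).minFac

lemma le_sg {n : ℕ} (h : 0 < n) : n ≤ sg n := by
  rcases (show n = 1 ∨ 1 < n by omega) with rfl | h1
  · decide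
  · exact (lt_sg h1).le

lemma sg_one : sg 1 = 1 := by decide

/-- either the next prime is determined, or the abundancy of the cofactor is an integer -/
lemma nxa_spec {a b A C : ℕ} (ha : 0 < a) (hb : 0 < b) (hA : 0 < A) (hC : 0 < C) (h : b * (sg A * sg C) = a * (A * C))
    (hcop : A.Coprime C) :
    (¬ b * sg A ∣ a * A → (nxa a b A).Prime ∧ nxa a b A ∣ C) ∧
    (∀ s : ℕ, a * A = b * sg A * s → sg C = s * C) := by
  have hsA : 0 < sg A := hA.trans_le (le_sg hA)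
  have hu : 0 < b * sg A := Nat.mul_pos hb hsA
  constructor
  · intro hnd
    obtain ⟨g, hg⟩ : ∃ g, g = Nat.gcd (b * sg A) (a * A) := ⟨_, rfl⟩
    have hg0 : 0 < g := by rw [hg]; exact Nat.gcd_pos_of_pos_left _ hu
    have hga : g ∣ b * sg A := by rw [hg]; exact Nat.gcd_dvd_left _ _
    have hgb : g ∣ a * A := by rw [hg]; exact Nat.gcd_dvd_right _ _
    obtain ⟨r, hr⟩ := hga
    obtain ⟨t, ht⟩ := hgb
    have hda : b * sg A / g = r := by rw [hr, Nat.mul_div_cancel_left _ hg0]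
    have hdb : a * A / g = t := by rw [ht, Nat.mul_div_cancel_left _ hg0]
    have hrt : r.Coprime t := by
      rw [← hda, ← hdb, hg]
      exact Nat.coprime_div_gcd_div_gcd (by rw [← hg]; exact hg0)
    have hdvd : r ∣ C := by
      have h3 : g * (r * sg C) = g * (t * C) := by
        calc g * (r * sg C) = (g * r) * sg C := by ring
          _ = b * (sg A * sg C) := by rw [← hr]; ring
          _ = a * (A * C) := h
          _ = (a * A) * C := by ring
          _ = g * (t * C) := by rw [ht]; ring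
      have h4 : r * sg C = t * C := Nat.eq_of_mul_eq_mul_left hg0 h3
      exact hrt.dvd_of_dvd_mul_left (Dvd.intro _ h4)
    have hr1 : r ≠ 1 := by
      rintro rfl
      rw [mul_one] at hr
      exact hnd (by rw [hr]; exact ⟨t, ht⟩)
    have hn : nxa a b A = r.minFac := by
      unfold nxa
      rw [← hg, hda]
    rw [hn]
    exact ⟨Nat.minFac_prime hr1, (Nat.minFac_dvd r).trans hdvd⟩
  · intro s hs
    have h3 : (b * sg A) * sg C = (b * sg A) * (s * C) := by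
      calc (b * sg A) * sg C = b * (sg A * sg C) := by ring
        _ = a * (A * C) := h
        _ = (a * A) * C := by ring
        _ = (b * sg A) * (s * C) := by rw [hs]; ring
    exact Nat.eq_of_mul_eq_mul_left hu h3

/-- the sum of the reciprocals of the prime factors -/
lemma weight' {N : ℕ} (hN0 : N ≠ 0) (hN : 2 * N ≤ sg N) : (1 / 3 : ℝ) ≤ ∑ q ∈ N.primeFactors, (1 : ℝ) / q := by
  have h1 : (2 * N : ℕ) ≤ ∏ p ∈ N.primeFactors, ∑ k ∈ range (N.factorization p + 1), p ^ k := by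
    rw [← Nat.sum_divisors hN0]
    exact hN
  have h2 : ((2 * N : ℕ) : ℝ) ≤ ∏ p ∈ N.primeFactors, ∑ k ∈ range (N.factorization p + 1), (p : ℝ) ^ k := by
    exact_mod_cast h1
  have h3 : ∏ p ∈ N.primeFactors, ∑ k ∈ range (N.factorization p + 1), (p : ℝ) ^ k ≤
      ∏ p ∈ N.primeFactors, ((p : ℝ) ^ N.factorization p * Real.exp (2 * (1 / p))) := by
    refine prod_le_prod (fun p _ => sum_nonneg fun k _ => by positivity) fun p hp => ?_
    have hp' := Nat.prime_of_mem_primeFactors hp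
    have hp0 : (0 : ℝ) < p := by exact_mod_cast hp'.pos
    have h4 := geom_sum_le p hp'.two_le (N.factorization p)
    have h5 : (p : ℝ) + 2 ≤ Real.exp (2 * (1 / p)) * p := by
      have h6 := Real.add_one_le_exp (2 * (1 / (p : ℝ)))
      have h7 : (2 * (1 / (p : ℝ)) + 1) * p = p + 2 := by field_simp; ring
      rw [← h7]
      exact mul_le_mul_of_nonneg_right h6 hp0.le
    have h8 : (∑ k ∈ range (N.factorization p + 1), (p : ℝ) ^ k) * p ≤
        ((p : ℝ) ^ N.factorization p * Real.exp (2 * (1 / p))) * p := by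
      refine h4.trans ?_
      rw [mul_assoc]
      exact mul_le_mul_of_nonneg_left h5 (by positivity)
    exact le_of_mul_le_mul_right h8 hp0
  have h3' := h2.trans h3
  rw [prod_mul_distrib, ← Real.exp_sum, ← mul_sum] at h3'
  have h4 : ∏ p ∈ N.primeFactors, (p : ℝ) ^ N.factorization p = N := by
    have h5 : ∏ p ∈ N.primeFactors, p ^ N.factorization p = N := Nat.prod_factorization_pow_eq_self hN0
    have h6 := congrArg (Nat.cast (R := ℝ)) h5
    push_cast at h6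
    exact h6
  rw [h4] at h3'
  have hNr : (0 : ℝ) < N := by exact_mod_cast Nat.pos_of_ne_zero hN0
  push_cast at h3'
  have h5 : (2 : ℝ) ≤ Real.exp (2 * ∑ q ∈ N.primeFactors, (1 : ℝ) / q) := by nlinarith
  have h6 := Real.log_le_log (by norm_num) h5
  rw [Real.log_exp] at h6
  have h7 := Real.log_two_gt_d9
  linarith

section count
open Classical

variable {ε c : ℝ} {T : ℕ} {𝒩 : Finset ℕ} {Y : ℕ} {K : ℝ}

/-- one step of the recursion -/
lemma stepA (h𝒩 : ∀ N ∈ 𝒩, 0 < N)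
    (hK : ∀ B : ℕ, Y ≤ B → B < 2 * Y ^ 2 → ((𝒩.filter fun N => B ∣ N).card : ℝ) ≤ K)
    {A p : ℕ} (hA : 1 ≤ A) (hAY : A < Y) (hp : p.Prime) (hpA : ¬ p ∣ A) (hpY : p < 2 * Y) :
    ∃ n : ℕ, (∀ e ∈ Icc 1 n, A * p ^ e < Y) ∧ ((𝒩.filter fun N => U A N ∧ p ∣ N).card : ℝ) ≤
      K + ∑ e ∈ Icc 1 n, ((𝒩.filter fun N => U (A * p ^ e) N).card : ℝ) := by
  have hex : ∃ f, Y ≤ A * p ^ f := by
    refine ⟨Y, ?_⟩
    have h1 : Y < p ^ Y := Nat.lt_pow_self hp.one_lt
    calc Y ≤ 1 * p ^ Y := by omega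
      _ ≤ A * p ^ Y := Nat.mul_le_mul_right _ hA
  obtain ⟨f, hf, hmin⟩ : ∃ f, Y ≤ A * p ^ f ∧ ∀ e < f, A * p ^ e < Y := by
    refine ⟨Nat.find hex, Nat.find_spec hex, fun e he => ?_⟩
    have := Nat.find_min hex he
    omega
  have hf1 : 1 ≤ f := by
    rcases Nat.eq_zero_or_pos f with h0 | h0
    · rw [h0, pow_zero, mul_one] at hf; omega
    · exact h0
  have hB : A * p ^ f < 2 * Y ^ 2 := by
    have h1 := hmin (f - 1) (by omega)
    have h2 : A * p ^ f = (A * p ^ (f - 1)) * p := by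
      rw [mul_assoc, ← pow_succ, Nat.sub_add_cancel hf1]
    rw [h2]
    have hY0 : 0 < Y := by omega
    calc A * p ^ (f - 1) * p ≤ Y * p := Nat.mul_le_mul_right _ h1.le
      _ < Y * (2 * Y) := Nat.mul_lt_mul_of_pos_left hpY hY0
      _ = 2 * Y ^ 2 := by ring
  refine ⟨f - 1, fun e he => hmin e (by have := mem_Icc.1 he; omega), ?_⟩
  have hsub : (𝒩.filter fun N => U A N ∧ p ∣ N) ⊆ (𝒩.filter fun N => A * p ^ f ∣ N) ∪
      (Icc 1 (f - 1)).biUnion fun e => 𝒩.filter fun N => U (A * p ^ e) N := by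
    intro N hN
    obtain ⟨hN1, ⟨C, hC, hAC⟩, hpN⟩ := mem_filter.1 hN
    have hN0 : 0 < N := h𝒩 N hN1
    have hC0 : C ≠ 0 := by
      rintro rfl
      rw [mul_zero] at hC; omega
    obtain ⟨e, C', hC', hCe⟩ := Nat.exists_eq_pow_mul_and_not_dvd hC0 p hp.ne_one
    rw [mem_union, mem_biUnion]
    by_cases hef : f ≤ e
    · left
      rw [mem_filter]
      refine ⟨hN1, ?_⟩
      rw [hC, hCe]
      exact Nat.mul_dvd_mul_left A ((pow_dvd_pow p hef).mul_right C')
    · right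
      have he1 : 1 ≤ e := by
        rcases Nat.eq_zero_or_pos e with h0 | h0
        · exfalso
          rw [h0, pow_zero, one_mul] at hCe
          rw [hC] at hpN
          rcases hp.dvd_mul.1 hpN with h | h
          · exact hpA h
          · rw [hCe] at h; exact hC' h
        · exact h0
      refine ⟨e, mem_Icc.2 ⟨he1, by omega⟩, mem_filter.2 ⟨hN1, C', ?_, ?_⟩⟩
      · rw [hC, hCe]; ring
      · have h1 : A.Coprime C' := hAC.coprime_dvd_right (by rw [hCe]; exact dvd_mul_left _ _)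
        have h2 : (p ^ e).Coprime C' := Nat.Coprime.pow_left e ((Nat.Prime.coprime_iff_not_dvd hp).2 hC')
        exact Nat.Coprime.mul_left h1 h2
  have h1 := card_le_card hsub
  have h2 := card_union_le (𝒩.filter fun N => A * p ^ f ∣ N)
    ((Icc 1 (f - 1)).biUnion fun e => 𝒩.filter fun N => U (A * p ^ e) N)
  have h3 := card_biUnion_le (s := Icc 1 (f - 1)) (t := fun e => 𝒩.filter fun N => U (A * p ^ e) N)
  have h4 : ((𝒩.filter fun N => U A N ∧ p ∣ N).card : ℝ) ≤ ((𝒩.filter fun N => A * p ^ f ∣ N).card : ℝ) +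
      ∑ e ∈ Icc 1 (f - 1), ((𝒩.filter fun N => U (A * p ^ e) N).card : ℝ) := by
    exact_mod_cast h1.trans (h2.trans (Nat.add_le_add_left h3 _))
  have h5 := hK (A * p ^ f) hf hB
  linarith

/-- summation over the exponents, with a general constant `G` -/
lemma step_sumA (h𝒩 : ∀ N ∈ 𝒩, 0 < N) (hε : 0 < ε) (hc1 : 1 ≤ c) (hc : 2 / ((2 : ℝ) ^ ε - 1) ≤ c)
    (hT : (3 : ℝ) ≤ (T : ℝ) ^ ε) {G : ℝ} (hKG : K ≤ G) (hG0 : 0 ≤ G)
    (hK : ∀ B : ℕ, Y ≤ B → B < 2 * Y ^ 2 → ((𝒩.filter fun N => B ∣ N).card : ℝ) ≤ K)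
    {A p : ℕ} (hA : 1 ≤ A) (hAY : A < Y) (hp : p.Prime) (hpA : ¬ p ∣ A) (hpY : p < 2 * Y)
    (ih : ∀ e : ℕ, 1 ≤ e → A * p ^ e < Y →
      ((𝒩.filter fun N => U (A * p ^ e) N).card : ℝ) ≤ G * (2 * ((Y : ℝ) ^ ε * wt ε c T (A * p ^ e)) - 1)) :
    ((𝒩.filter fun N => U A N ∧ p ∣ N).card : ℝ) ≤ G * (2 * ((Y : ℝ) ^ ε * wt ε c T A) - 1) := by
  obtain ⟨n, hn, hle⟩ := stepA h𝒩 hK hA hAY hp hpA hpY
  have hA0 : (0 : ℝ) < A := by exact_mod_cast hA
  have hY0 : (0 : ℝ) < Y := by exact_mod_cast (by omega : 0 < Y)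
  have hW : 1 ≤ (Y : ℝ) ^ ε * wt ε c T A := by
    unfold wt
    have h1 : (1 : ℝ) ≤ (Y : ℝ) ^ ε * (A : ℝ) ^ (-ε) := by
      rw [Real.rpow_neg hA0.le, ← div_eq_mul_inv, one_le_div (by positivity)]
      exact Real.rpow_le_rpow hA0.le (by exact_mod_cast hAY.le) hε.le
    have h2 : (1 : ℝ) ≤ c ^ sm T A := one_le_pow₀ hc1
    nlinarith
  have h1 : ∑ e ∈ Icc 1 n, ((𝒩.filter fun N => U (A * p ^ e) N).card : ℝ) ≤
      ∑ e ∈ Icc 1 n, G * (2 * ((Y : ℝ) ^ ε * wt ε c T (A * p ^ e)) - 1) :=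
    sum_le_sum fun e he => ih e (mem_Icc.1 he).1 (hn e he)
  have h2 : ∑ e ∈ Icc 1 n, G * (2 * ((Y : ℝ) ^ ε * wt ε c T (A * p ^ e)) - 1) =
      G * (2 * (Y : ℝ) ^ ε * ∑ e ∈ Icc 1 n, wt ε c T (A * p ^ e) - n) := by
    rw [← mul_sum, sum_sub_distrib, sum_const, Nat.card_Icc, mul_sum]
    simp only [nsmul_eq_mul, mul_one, Nat.add_sub_cancel]
    congr 2
    refine sum_congr rfl fun e _ => ?_
    ring
  have h3 := wt_sum hε hc1 hc hT hA hp hpA n
  have hYε : 0 < (Y : ℝ) ^ ε := by positivity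
  have h4 : 2 * (Y : ℝ) ^ ε * ∑ e ∈ Icc 1 n, wt ε c T (A * p ^ e) ≤ (Y : ℝ) ^ ε * wt ε c T A := by
    nlinarith
  rcases Nat.eq_zero_or_pos n with h0 | h0
  · rw [h0] at hle
    simp only [show Icc 1 0 = (∅ : Finset ℕ) from rfl, sum_empty, add_zero] at hle
    nlinarith
  · have hn1 : (1 : ℝ) ≤ n := by exact_mod_cast h0
    rw [h2] at h1
    have h5 : G * (2 * (Y : ℝ) ^ ε * ∑ e ∈ Icc 1 n, wt ε c T (A * p ^ e) - n) ≤
        G * ((Y : ℝ) ^ ε * wt ε c T A - 1) := by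
      apply mul_le_mul_of_nonneg_left _ hG0
      linarith
    nlinarith

end count

end Pool.Agent.D0H92.SI
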