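import Pool.Agent.D0H92.SI.Avg

set_option autoImplicit false

/-!
# Members of an abundancy club with a given unitary divisor
-/

namespace Pool.Agent.D0H92.SI

open Finset

section count
open Classical

variable {ε c : ℝ} {T : ℕ} {𝒩 : Finset ℕ} {X Y : ℕ} {K K' : ℝ} {a b : ℕ}

lemma one_le_W (hε : 0 < ε) (hc1 : 1 ≤ c) {A : ℕ} (hA : 1 ≤ A) (hAY : A < Y) : 1 ≤ (Y : ℝ) ^ ε * wt ε c T A := by
  have hA0 : (0 : ℝ) < A := by exact_mod_cast hA
  have hY0 : (0 : ℝ) < Y := by exact_mod_cast (by omega : 0 < Y)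
  unfold wt
  have h1 : (1 : ℝ) ≤ (Y : ℝ) ^ ε * (A : ℝ) ^ (-ε) := by
    rw [Real.rpow_neg hA0.le, ← div_eq_mul_inv, one_le_div (by positivity)]
    exact Real.rpow_le_rpow hA0.le (by exact_mod_cast hAY.le) hε.le
  have h2 : (1 : ℝ) ≤ c ^ sm T A := one_le_pow₀ hc1
  nlinarith

lemma le_sg_pow {p e : ℕ} (hp : p.Prime) : p ^ e ≤ sg (p ^ e) := le_sg (pow_pos hp.pos e)

lemma sg_mul_pow {A p e : ℕ} (hp : p.Prime) (hpA : ¬ p ∣ A) : sg (A * p ^ e) = sg A * sg (p ^ e) := by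
  apply sg_mul
  exact (Nat.Coprime.pow_left e ((Nat.Prime.coprime_iff_not_dvd hp).2 hpA)).symm

/-- the step of the outer induction -/
lemma club_step (ha : 0 < a) (hb : 0 < b) (h𝒩 : ∀ N ∈ 𝒩, Ab a b N ∧ N ≤ X) (hX : 16 ≤ X)
    (hε : 0 < ε) (hc1 : 1 ≤ c) (hc : 2 / ((2 : ℝ) ^ ε - 1) ≤ c)
    (hT : (3 : ℝ) ≤ (T : ℝ) ^ ε) (hK1 : 1 ≤ K) (hK'0 : 0 ≤ K')
    (hK : ∀ B : ℕ, Y ≤ B → B < 2 * Y ^ 2 → ((𝒩.filter fun N => B ∣ N).card : ℝ) ≤ K)
    (hK' : ∀ q : ℕ, q.Prime → Y ≤ q → ((𝒩.filter fun N => q ∣ N).card : ℝ) ≤ K')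
    {C₃ C₄ ℓ G G' : ℝ} (hC₃ : 0 < C₃) (hC₄ : 0 < C₄) (hℓ : 0 ≤ ℓ)
    (havg : ∀ (𝒩 : Finset ℕ) (A : ℕ) (M : ℝ), 0 ≤ M →
      (∀ N ∈ 𝒩, N ≤ X ∧ 0 < N ∧ ∃ C, N = A * C ∧ A.Coprime C ∧ 2 * C ≤ sg C) →
      (∀ q : ℕ, q.Prime → ¬ q ∣ A → q < Y → ((𝒩.filter fun N => q ∣ N).card : ℝ) ≤ M) →
      (∀ q : ℕ, q.Prime → ¬ q ∣ A → Y ≤ q → ((𝒩.filter fun N => q ∣ N).card : ℝ) ≤ K') →
      (𝒩.card : ℝ) ≤ C₃ * (M * (Y : ℝ) ^ ε) + C₄ * (K' * ℓ))
    (hKG : K ≤ G) (hKG' : K ≤ G') (hK'G' : K' ≤ G') (hGG' : 2 * C₃ * (G * (Y : ℝ) ^ ε) + C₄ * (K' * ℓ) ≤ G') (t : ℕ)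
    (iht : ∀ A : ℕ, 1 ≤ A → A < Y → a * A < (t + 1) * (b * sg A) →
      ((𝒩.filter fun N => U A N).card : ℝ) ≤ G * (2 * ((Y : ℝ) ^ ε * wt ε c T A) - 1)) :
    ∀ m A : ℕ, Y - A ≤ m → 1 ≤ A → A < Y → a * A < (t + 2) * (b * sg A) →
      ((𝒩.filter fun N => U A N).card : ℝ) ≤ G' * (2 * ((Y : ℝ) ^ ε * wt ε c T A) - 1) := by
  have h𝒩0 : ∀ N ∈ 𝒩, 0 < N := fun N hN => (h𝒩 N hN).1.2
  intro m
  induction m with
  | zero => intro A h1 h2 h3; omega
  | succ m ih =>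
    intro A hm hA hAY hrat
    have hW := one_le_W (T := T) (ε := ε) (c := c) hε hc1 hA hAY
    obtain ⟨W, hWd⟩ : ∃ W : ℝ, W = (Y : ℝ) ^ ε * wt ε c T A := ⟨_, rfl⟩
    have hW' : 1 ≤ W := by rw [hWd]; exact hW
    have hG'0 : 0 ≤ G' := by linarith
    have hG'W : G' ≤ G' * (2 * W - 1) := by nlinarith
    have hsA : 0 < sg A := lt_of_lt_of_le (by omega) (le_sg hA)
    have hu : 0 < b * sg A := Nat.mul_pos hb hsA
    -- the cofactor
    have hcof : ∀ N ∈ 𝒩.filter (fun N => U A N), ∃ C, 0 < C ∧ N = A * C ∧ A.Coprime C ∧ b * (sg A * sg C) = a * (A * C) := by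
      intro N hN
      obtain ⟨hN1, C, hC, hAC⟩ := mem_filter.1 hN
      obtain ⟨⟨hab, hN0⟩, -⟩ := h𝒩 N hN1
      have hC0 : 0 < C := by
        rcases Nat.eq_zero_or_pos C with h0 | h0
        · rw [h0, mul_zero] at hC; omega
        · exact h0
      refine ⟨C, hC0, hC, hAC, ?_⟩
      rw [← sg_mul hAC, ← hC]
      exact hab
    by_cases hdv : b * sg A ∣ a * A
    · obtain ⟨s, hs⟩ := hdv
      have hs0 : s ≠ 0 := by
        rintro rfl
        rw [mul_zero] at hs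
        have : 0 < a * A := Nat.mul_pos ha (by omega)
        omega
      have hst : s ≤ t + 1 := by
        have h1 : b * sg A * s < b * sg A * (t + 2) := by
          rw [← hs, mul_comm (b * sg A)]; exact hrat
        have := Nat.lt_of_mul_lt_mul_left h1
        omega
      rcases (show s = 1 ∨ 2 ≤ s by omega) with hs1 | hs2
      · -- only `A` itself
        have h1 : (𝒩.filter fun N => U A N) ⊆ {A} := by
          intro N hN
          obtain ⟨C, hC0, hC, hAC, hab⟩ := hcof N hN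
          have h2 := (nxa_spec ha hb (by omega) hC0 hab hAC).2 s hs
          rw [hs1, one_mul] at h2
          rw [mem_singleton, hC]
          rcases (show C = 1 ∨ 1 < C by omega) with h | h
          · rw [h, mul_one]
          · have := lt_sg h
            omega
        have h2 : ((𝒩.filter fun N => U A N).card : ℝ) ≤ 1 := by
          exact_mod_cast (card_le_card h1).trans (by simp)
        rw [← hWd]
        linarith
      · -- averaging
        obtain ⟨M, hM⟩ : ∃ M : ℝ, M = 2 * (G * W) := ⟨_, rfl⟩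
        have hG0 : 0 ≤ G := by linarith
        have h1 := havg (𝒩.filter fun N => U A N) A M (by rw [hM]; positivity) (by
          intro N hN
          obtain ⟨C, hC0, hC, hAC, hab⟩ := hcof N hN
          have h2 := (nxa_spec ha hb (by omega) hC0 hab hAC).2 s hs
          have hN1 := (mem_filter.1 hN).1
          refine ⟨(h𝒩 N hN1).2, h𝒩0 N hN1, C, hC, hAC, ?_⟩
          rw [h2]
          exact Nat.mul_le_mul_right _ hs2) (by
          intro q hq hqA hqY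
          have h2 := step_sumA (T := T) (G := G) h𝒩0 hε hc1 hc hT hKG hG0 hK hA hAY hq hqA (by omega) (by
            intro e he heY
            have h3 : 1 < q ^ e := Nat.one_lt_pow (by omega) hq.one_lt
            have h4 := lt_sg h3
            have h5 : 0 < A * q ^ e := Nat.mul_pos (by omega) (by omega)
            apply iht _ h5 heY
            rw [sg_mul_pow hq hqA]
            calc a * (A * q ^ e) = (b * sg A * s) * q ^ e := by rw [← hs]; ring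
              _ ≤ (b * sg A * (t + 1)) * q ^ e := Nat.mul_le_mul_right _ (Nat.mul_le_mul_left _ hst)
              _ < (b * sg A * (t + 1)) * sg (q ^ e) := Nat.mul_lt_mul_of_pos_left h4 (Nat.mul_pos hu (by omega))
              _ = (t + 1) * (b * (sg A * sg (q ^ e))) := by ring)
          rw [← hWd] at h2
          have h3 : ((𝒩.filter fun N => U A N).filter fun N => q ∣ N) = 𝒩.filter fun N => U A N ∧ q ∣ N := filter_filter _ _ _
          rw [h3]
          refine h2.trans ?_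
          rw [hM]
          nlinarith) (by
          intro q hq hqA hqY
          refine le_trans ?_ (hK' q hq hqY)
          exact_mod_cast card_le_card (filter_subset_filter _ (filter_subset _ _)))
        rw [← hWd]
        refine h1.trans ?_
        have h2 : C₃ * (M * (Y : ℝ) ^ ε) = (2 * C₃ * (G * (Y : ℝ) ^ ε)) * W := by rw [hM]; ring
        rw [h2]
        have h3 : 0 ≤ C₄ * (K' * ℓ) := by positivity
        have h4 : 0 ≤ 2 * C₃ * (G * (Y : ℝ) ^ ε) := by positivity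
        nlinarith
    · rcases (𝒩.filter fun N => U A N).eq_empty_or_nonempty with h0 | ⟨N₀, hN₀⟩
      · rw [h0, card_empty, Nat.cast_zero, ← hWd]; linarith
      · have hgood : ∀ N ∈ 𝒩.filter (fun N => U A N), (nxa a b A).Prime ∧ ¬ nxa a b A ∣ A ∧ nxa a b A ∣ N := by
          intro N hN
          obtain ⟨C, hC0, hC, hAC, hab⟩ := hcof N hN
          obtain ⟨h1, h2⟩ := (nxa_spec ha hb (by omega) hC0 hab hAC).1 hdv
          refine ⟨h1, fun h => ?_, by rw [hC]; exact h2.mul_left A⟩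
          exact h1.ne_one (Nat.Coprime.eq_one_of_dvd (hAC.coprime_dvd_left h) h2)
        obtain ⟨hp, hpA, -⟩ := hgood N₀ hN₀
        have heq : (𝒩.filter fun N => U A N) = 𝒩.filter fun N => U A N ∧ nxa a b A ∣ N := by
          apply Subset.antisymm
          · intro N hN
            exact mem_filter.2 ⟨(mem_filter.1 hN).1, (mem_filter.1 hN).2, (hgood N hN).2.2⟩
          · intro N hN
            exact mem_filter.2 ⟨(mem_filter.1 hN).1, (mem_filter.1 hN).2.1⟩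
        rw [heq]
        by_cases hpY : nxa a b A < 2 * Y
        · apply step_sumA h𝒩0 hε hc1 hc hT hKG' hG'0 hK hA hAY hp hpA hpY
          intro e he heY
          have h2 : 1 < nxa a b A ^ e := Nat.one_lt_pow (by omega) hp.one_lt
          have h1 : A < A * nxa a b A ^ e := (Nat.lt_mul_iff_one_lt_right (by omega)).2 h2
          apply ih _ (by omega) (by omega) heY
          rw [sg_mul_pow hp hpA]
          calc a * (A * nxa a b A ^ e) = (a * A) * nxa a b A ^ e := by ring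
            _ < ((t + 2) * (b * sg A)) * nxa a b A ^ e := Nat.mul_lt_mul_of_pos_right hrat (by omega)
            _ ≤ ((t + 2) * (b * sg A)) * sg (nxa a b A ^ e) := Nat.mul_le_mul_left _ (le_sg_pow hp)
            _ = (t + 2) * (b * (sg A * sg (nxa a b A ^ e))) := by ring
        · have hss : (𝒩.filter fun N => U A N ∧ nxa a b A ∣ N) ⊆ 𝒩.filter fun N => nxa a b A ∣ N := by
            intro N hN
            exact mem_filter.2 ⟨(mem_filter.1 hN).1, (mem_filter.1 hN).2.2⟩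
          have h1 : ((𝒩.filter fun N => U A N ∧ nxa a b A ∣ N).card : ℝ) ≤ ((𝒩.filter fun N => nxa a b A ∣ N).card : ℝ) := by
            exact_mod_cast card_le_card hss
          have h2 := hK' _ hp (by omega)
          rw [← hWd]
          linarith

end count

open Classical in
/-- **The criterion for clubs.** -/
theorem club_crit (ε α₀ : ℝ) (hε : 0 < ε) : ∃ C : ℝ, 0 < C ∧ ∀ (a b : ℕ) (𝒩 : Finset ℕ) (X Y : ℕ) (K K' : ℝ),
    0 < a → 0 < b → (a : ℝ) ≤ α₀ * b →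
    (∀ N ∈ 𝒩, Ab a b N ∧ N ≤ X) → 16 ≤ X → 1 ≤ Y → 1 ≤ K → 0 ≤ K' →
    (∀ B : ℕ, Y ≤ B → B < 2 * Y ^ 2 → ((𝒩.filter fun N => B ∣ N).card : ℝ) ≤ K) →
    (∀ q : ℕ, q.Prime → Y ≤ q → ((𝒩.filter fun N => q ∣ N).card : ℝ) ≤ K') →
    (𝒩.card : ℝ) ≤ C * (Y : ℝ) ^ ε * (K + K' * Real.log (Real.log (Real.log X))) := by
  obtain ⟨t₀, ht₀⟩ := exists_nat_gt α₀
  obtain ⟨η, hη⟩ : ∃ η : ℝ, η = ε / (t₀ + 1) := ⟨_, rfl⟩
  have hη0 : 0 < η := by rw [hη]; positivity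
  obtain ⟨c, hc⟩ : ∃ c : ℝ, c = max 1 (2 / ((2 : ℝ) ^ η - 1)) := ⟨_, rfl⟩
  have hc1 : 1 ≤ c := by rw [hc]; exact le_max_left _ _
  have hc2 : 2 / ((2 : ℝ) ^ η - 1) ≤ c := by rw [hc]; exact le_max_right _ _
  obtain ⟨T, hT⟩ : ∃ T : ℕ, (3 : ℝ) ≤ (T : ℝ) ^ η := by
    have h1 : Filter.Tendsto (fun n : ℕ => (n : ℝ) ^ η) Filter.atTop Filter.atTop :=
      (tendsto_rpow_atTop hη0).comp tendsto_natCast_atTop_atTop
    exact (h1.eventually_ge_atTop 3).exists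
  obtain ⟨C₃, C₄, hC₃, hC₄, havg⟩ := avg η hη0
  obtain ⟨D, hD0, hDs⟩ : ∃ D : ℕ → ℝ, D 0 = 200 ∧ ∀ t, D (t + 1) = 2 * C₃ * D t + C₄ + 200 :=
    ⟨fun t => Nat.rec 200 (fun _ x => 2 * C₃ * x + C₄ + 200) t, rfl, fun _ => rfl⟩
  have hD200 : ∀ t, 200 ≤ D t := by
    intro t
    induction t with
    | zero => rw [hD0]
    | succ t ih =>
      rw [hDs]
      have : 0 ≤ 2 * C₃ * D t := by have : 0 ≤ D t := by linarith
                                    positivity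
      linarith
  have hDt : 0 < D t₀ := by linarith [hD200 t₀]
  have hcp : (1 : ℝ) ≤ c ^ sm T 1 := one_le_pow₀ hc1
  refine ⟨2 * D t₀ * c ^ sm T 1 + 1, by positivity, ?_⟩
  intro a b 𝒩 X Y K K' ha hb hab h𝒩 hX hY hK1 hK'0 hK hK'
  have hXr : (16 : ℝ) ≤ X := by exact_mod_cast hX
  obtain ⟨hl1, hl2, hl3⟩ := lll hXr
  obtain ⟨ℓ, hℓ⟩ : ∃ ℓ : ℝ, ℓ = Real.log (Real.log (Real.log X)) := ⟨_, rfl⟩
  rw [← hℓ] at hl3 ⊢
  have hℓ0 : 0 ≤ ℓ := by linarith
  obtain ⟨Λ, hΛ⟩ : ∃ Λ : ℝ, Λ = K + K' * ℓ := ⟨_, rfl⟩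
  rw [← hΛ]
  have hK'ℓ : 0 ≤ K' * ℓ := by positivity
  have hKΛ : K ≤ Λ := by rw [hΛ]; linarith
  have hK'Λ : K' ≤ 200 * Λ := by rw [hΛ]; nlinarith
  have hΛ1 : 1 ≤ Λ := by linarith
  have hYr : (1 : ℝ) ≤ Y := by exact_mod_cast hY
  have hY0 : (0 : ℝ) < Y := by linarith
  have hYη : 1 ≤ (Y : ℝ) ^ η := Real.one_le_rpow hYr hη0.le
  have hYε : 1 ≤ (Y : ℝ) ^ ε := Real.one_le_rpow hYr hε.le
  by_cases hY1 : Y = 1
  · have h1 := hK 1 (by omega) (by rw [hY1]; norm_num)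
    have h2 : (𝒩.filter fun N => 1 ∣ N) = 𝒩 := filter_true_of_mem fun N _ => one_dvd N
    rw [h2] at h1
    have h3 : (1 : ℝ) ≤ (2 * D t₀ * c ^ sm T 1 + 1) * (Y : ℝ) ^ ε := by
      have : 0 ≤ 2 * D t₀ * c ^ sm T 1 := by positivity
      nlinarith
    nlinarith
  have hmain : ∀ t : ℕ, ∀ A : ℕ, 1 ≤ A → A < Y → a * A < (t + 1) * (b * sg A) →
      ((𝒩.filter fun N => U A N).card : ℝ) ≤ (D t * Λ * ((Y : ℝ) ^ η) ^ t) * (2 * ((Y : ℝ) ^ η * wt η c T A) - 1) := by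
    intro t
    induction t with
    | zero =>
      intro A hA hAY hrat
      have hW := one_le_W (T := T) (ε := η) (c := c) hη0 hc1 hA hAY
      have h1 : (𝒩.filter fun N => U A N) = ∅ := by
        rw [filter_eq_empty_iff]
        rintro N hN ⟨C, hC, hAC⟩
        obtain ⟨⟨hab', hN0⟩, -⟩ := h𝒩 N hN
        have hC0 : 0 < C := by
          rcases Nat.eq_zero_or_pos C with h0 | h0
          · rw [h0, mul_zero] at hC; omega
          · exact h0
        rw [hC, sg_mul hAC] at hab'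
        have h2 : b * sg A * C ≤ b * sg A * sg C := Nat.mul_le_mul_left _ (le_sg hC0)
        have h3 : a * A * C < (0 + 1) * (b * sg A) * C := Nat.mul_lt_mul_of_pos_right hrat hC0
        nlinarith
      rw [h1, card_empty, Nat.cast_zero]
      have h2 : 0 ≤ D 0 * Λ * ((Y : ℝ) ^ η) ^ 0 := by rw [hD0]; positivity
      exact mul_nonneg h2 (by linarith)
    | succ t ih =>
      intro A hA hAY hrat
      have hDt0 : 200 ≤ D t := hD200 t
      have hDt1 : 200 ≤ D (t + 1) := hD200 (t + 1)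
      have hp1 : 1 ≤ ((Y : ℝ) ^ η) ^ t := one_le_pow₀ hYη
      have hp2 : 1 ≤ ((Y : ℝ) ^ η) ^ (t + 1) := one_le_pow₀ hYη
      have h200 : ∀ d : ℝ, 200 ≤ d → ∀ r : ℝ, 1 ≤ r → 200 * Λ ≤ d * Λ * r := by
        intro d hd r hr
        have h1 : 200 * Λ ≤ d * Λ := mul_le_mul_of_nonneg_right hd (by linarith)
        have h2 : 0 ≤ d * Λ := by nlinarith
        nlinarith
      have hg1 := h200 (D t) hDt0 _ hp1
      have hg2 := h200 (D (t + 1)) hDt1 _ hp2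
      refine club_step (t := t) ha hb h𝒩 hX hη0 hc1 hc2 hT hK1 hK'0 hK hK' hC₃ hC₄ hℓ0
        (fun 𝒩' A' M h1 h2 h3 h4 => by
          have := havg 𝒩' A' X Y M K' hX hY h1 hK'0 h2 h3 h4
          rw [← hℓ] at this
          exact this)
        (G := D t * Λ * ((Y : ℝ) ^ η) ^ t) (G' := D (t + 1) * Λ * ((Y : ℝ) ^ η) ^ (t + 1))
        (by linarith) (by linarith) (by linarith) ?_ ih (Y - A) A le_rfl hA hAY hrat
      have h1 : 2 * C₃ * (D t * Λ * ((Y : ℝ) ^ η) ^ t * (Y : ℝ) ^ η) = 2 * C₃ * D t * (Λ * ((Y : ℝ) ^ η) ^ (t + 1)) := by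
        rw [pow_succ]; ring
      have h2 : C₄ * (K' * ℓ) ≤ C₄ * (Λ * ((Y : ℝ) ^ η) ^ (t + 1)) := by
        apply mul_le_mul_of_nonneg_left _ hC₄.le
        have h3 : K' * ℓ ≤ Λ := by rw [hΛ]; linarith
        nlinarith
      have h3 : 0 ≤ Λ * ((Y : ℝ) ^ η) ^ (t + 1) := by positivity
      rw [h1, hDs]
      nlinarith
  have h1 := hmain t₀ 1 le_rfl (by omega) (by
    rw [sg_one, mul_one, mul_one]
    have h2 : (a : ℝ) < (t₀ + 1) * b := by
      have hb' : (0 : ℝ) < b := by exact_mod_cast hb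
      nlinarith
    exact_mod_cast h2)
  have h2 : (𝒩.filter fun N => U 1 N) = 𝒩 := by
    apply filter_true_of_mem
    intro N _
    exact ⟨N, (one_mul N).symm, Nat.coprime_one_left N⟩
  rw [h2] at h1
  have h3 : wt η c T 1 = c ^ sm T 1 := by
    unfold wt
    rw [Nat.cast_one, Real.one_rpow, one_mul]
  rw [h3] at h1
  have h4 : ((Y : ℝ) ^ η) ^ t₀ * (Y : ℝ) ^ η = (Y : ℝ) ^ ε := by
    rw [← pow_succ, ← Real.rpow_natCast, ← Real.rpow_mul hY0.le, hη]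
    congr 1
    push_cast
    field_simp
  have h5 : (D t₀ * Λ * ((Y : ℝ) ^ η) ^ t₀) * (2 * ((Y : ℝ) ^ η * c ^ sm T 1) - 1) ≤
      (2 * D t₀ * c ^ sm T 1) * (((Y : ℝ) ^ η) ^ t₀ * (Y : ℝ) ^ η) * Λ := by
    have h6 : 0 ≤ D t₀ * Λ * ((Y : ℝ) ^ η) ^ t₀ := by positivity
    nlinarith
  rw [h4] at h5
  have h6 : (2 * D t₀ * c ^ sm T 1) * (Y : ℝ) ^ ε * Λ ≤ (2 * D t₀ * c ^ sm T 1 + 1) * (Y : ℝ) ^ ε * Λ := by
    have : 0 ≤ (Y : ℝ) ^ ε * Λ := by positivity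
    nlinarith
  linarith

end Pool.Agent.D0H92.SI
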