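import Pool.Agent.D0H92.SI.Rec
import Pool.Agent.D0H92.OP.Scale
import Pool.Agent.Helper256.KM.Mertens

set_option autoImplicit false

/-!
# Sets of perfect numbers with few multiples of every large integer
-/

namespace Pool.Agent.D0H92.SI

open Finset

lemma geom_sum_le (p : ℕ) (hp : 2 ≤ p) (e : ℕ) :
    (∑ k ∈ range (e + 1), (p : ℝ) ^ k) * p ≤ (p : ℝ) ^ e * (p + 2) := by
  have hp2 : (2 : ℝ) ≤ p := by exact_mod_cast hp
  induction e with
  | zero => simp
  | succ e ih =>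
    rw [sum_range_succ, add_mul]
    have h1 : 0 < (p : ℝ) ^ e := by positivity
    have h2 : (p : ℝ) ^ (e + 1) = (p : ℝ) ^ e * p := pow_succ _ _
    rw [h2]
    nlinarith [mul_pos h1 (by linarith : (0 : ℝ) < p)]

/-- the sum of the reciprocals of the prime factors of a perfect number -/
lemma weight {N : ℕ} (hN : N.Perfect) : (1 / 3 : ℝ) ≤ ∑ q ∈ N.primeFactors, (1 : ℝ) / q := by
  have hN0 : N ≠ 0 := hN.2.ne'
  have h1 : (2 * N : ℕ) = ∏ p ∈ N.primeFactors, ∑ k ∈ range (N.factorization p + 1), p ^ k := by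
    rw [← Nat.sum_divisors hN0]
    exact (sg_perfect hN).symm
  have h2 : ((2 * N : ℕ) : ℝ) = ∏ p ∈ N.primeFactors, ∑ k ∈ range (N.factorization p + 1), (p : ℝ) ^ k := by
    rw [h1]
    push_cast
    rfl
  have h3 : ∏ p ∈ N.primeFactors, ∑ k ∈ range (N.factorization p + 1), (p : ℝ) ^ k ≤
      ∏ p ∈ N.primeFactors, ((p : ℝ) ^ N.factorization p * Real.exp (2 * (1 / p))) := by
    refine prod_le_prod (fun p _ => sum_nonneg fun k _ => by positivity) fun p hp => ?_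
    have hp' := Nat.prime_of_mem_primeFactors hp
    have hp0 : (0 : ℝ) < p := by exact_mod_cast hp'.pos
    have h4 := geom_sum_le p hp'.two_le (N.factorization p)
    have h5 : (p : ℝ) + 2 ≤ Real.exp (2 * (1 / p)) * p := by
      have h6 := Real.add_one_le_exp (2 * (1 / (p : ℝ)))
      have h7 : (2 * (1 / (p : ℝ)) + 1) * p = p + 2 := by field_simp; ring
      rw [← h7]
      exact mul_le_mul_of_nonneg_right h6 hp0.le
    have h8 : (∑ k ∈ range (N.factorization p + 1), (p : ℝ) ^ k) * p ≤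
        ((p : ℝ) ^ N.factorization p * Real.exp (2 * (1 / p))) * p := by
      refine h4.trans ?_
      rw [mul_assoc]
      exact mul_le_mul_of_nonneg_left h5 (by positivity)
    exact le_of_mul_le_mul_right h8 hp0
  rw [← h2, prod_mul_distrib, ← Real.exp_sum, ← mul_sum] at h3
  have h4 : ∏ p ∈ N.primeFactors, (p : ℝ) ^ N.factorization p = N := by
    have h5 : ∏ p ∈ N.primeFactors, p ^ N.factorization p = N := Nat.prod_factorization_pow_eq_self hN0
    have h6 := congrArg (Nat.cast (R := ℝ)) h5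
    push_cast at h6
    exact h6
  rw [h4] at h3
  have hNr : (0 : ℝ) < N := by exact_mod_cast hN.2
  push_cast at h3
  have h5 : (2 : ℝ) ≤ Real.exp (2 * ∑ q ∈ N.primeFactors, (1 : ℝ) / q) := by nlinarith
  have h6 := Real.log_le_log (by norm_num) h5
  rw [Real.log_exp] at h6
  have h7 := Real.log_two_gt_d9
  linarith

lemma lll {X : ℝ} (h : 16 ≤ X) : 1 ≤ Real.log X ∧ 1 ≤ Real.log (Real.log X) ∧
    1 / 200 ≤ Real.log (Real.log (Real.log X)) := by
  have h1 : (2.772 : ℝ) ≤ Real.log X := by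
    have h2 : Real.log 16 = 4 * Real.log 2 := by
      rw [show (16 : ℝ) = 2 ^ 4 by norm_num, Real.log_pow]; norm_num
    have h3 := Real.log_le_log (by norm_num) h
    have h4 := Real.log_two_gt_d9
    linarith
  have h2 : (1.01 : ℝ) ≤ Real.log (Real.log X) := by
    rw [Real.le_log_iff_exp_le (by linarith)]
    have h3 := Real.exp_one_lt_d9
    have h4 := Real.add_one_le_exp (-(0.01 : ℝ))
    have h5 : Real.exp (0.01 : ℝ) * Real.exp (-(0.01 : ℝ)) = 1 := by rw [← Real.exp_add]; norm_num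
    have h6 : Real.exp (1.01 : ℝ) = Real.exp 1 * Real.exp 0.01 := by rw [← Real.exp_add]; norm_num
    rw [h6]
    have h7 : 0 < Real.exp (0.01 : ℝ) := Real.exp_pos _
    have h8 : Real.exp (0.01 : ℝ) ≤ 1.011 := by nlinarith
    have h9 : Real.exp 1 * Real.exp 0.01 ≤ 2.7182818286 * 1.011 :=
      mul_le_mul h3.le h8 h7.le (by norm_num)
    linarith
  have h3 : (1 / 200 : ℝ) ≤ Real.log (Real.log (Real.log X)) := by
    have h4 := Real.one_sub_inv_le_log_of_pos (show (0 : ℝ) < 1.01 by norm_num)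
    have h5 := Real.log_le_log (by norm_num) h2
    norm_num at h4 ⊢
    linarith
  exact ⟨by linarith, by linarith, h3⟩

open Classical in
/-- **The criterion.** -/
theorem crit (ε : ℝ) (hε : 0 < ε) : ∃ C : ℝ, 0 < C ∧ ∀ (𝒩 : Finset ℕ) (X Y : ℕ) (K K' : ℝ),
    (∀ N ∈ 𝒩, N.Perfect ∧ N ≤ X) → 16 ≤ X → 1 ≤ Y → 1 ≤ K → 0 ≤ K' →
    (∀ B : ℕ, Y ≤ B → B < 2 * Y ^ 2 → ((𝒩.filter fun N => B ∣ N).card : ℝ) ≤ K) →
    (∀ q : ℕ, q.Prime → Y ≤ q → ((𝒩.filter fun N => q ∣ N).card : ℝ) ≤ K') →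
    (𝒩.card : ℝ) ≤ C * (K * (Y : ℝ) ^ ε + K' * Real.log (Real.log (Real.log X))) := by
  obtain ⟨η, hη⟩ : ∃ η : ℝ, η = ε / 2 := ⟨_, rfl⟩
  have hη0 : 0 < η := by rw [hη]; positivity
  obtain ⟨c, hc⟩ : ∃ c : ℝ, c = max 1 (2 / ((2 : ℝ) ^ η - 1)) := ⟨_, rfl⟩
  have hc1 : 1 ≤ c := by rw [hc]; exact le_max_left _ _
  have hc2 : 2 / ((2 : ℝ) ^ η - 1) ≤ c := by rw [hc]; exact le_max_right _ _
  obtain ⟨T, hT⟩ : ∃ T : ℕ, (3 : ℝ) ≤ (T : ℝ) ^ η := by
    have h1 : Filter.Tendsto (fun n : ℕ => (n : ℝ) ^ η) Filter.atTop Filter.atTop :=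
      (tendsto_rpow_atTop hη0).comp tendsto_natCast_atTop_atTop
    exact (h1.eventually_ge_atTop 3).exists
  obtain ⟨Cm', hCm'⟩ := Pool.Agent.Helper256.KM.mertens_inv
  obtain ⟨Cm, hCmd⟩ : ∃ Cm : ℝ, Cm = max Cm' 0 := ⟨_, rfl⟩
  have hCm0 : 0 ≤ Cm := by rw [hCmd]; exact le_max_right _ _
  have hCm : ∀ N : ℕ, 3 ≤ N → ∑ p ∈ (Finset.Icc 1 N).filter Nat.Prime, (1 : ℝ) / p ≤ Real.log (Real.log N) + Cm := by
    intro N hN
    have h1 := (abs_le.1 (hCm' N hN)).2
    have h2 : Cm' ≤ Cm := by rw [hCmd]; exact le_max_left _ _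
    linarith
  obtain ⟨C₂, hC₂⟩ : ∃ C₂ : ℝ, C₂ = 2 * c ^ sm T 1 := ⟨_, rfl⟩
  have hC₂0 : 0 < C₂ := by rw [hC₂]; positivity
  obtain ⟨C₃, hC₃⟩ : ∃ C₃ : ℝ, C₃ = 4 * C₂ * (Real.log 3 + Cm + 1 / η) := ⟨_, rfl⟩
  have hlog3 : 0 ≤ Real.log 3 := Real.log_nonneg (by norm_num)
  have hC₃0 : 0 < C₃ := by rw [hC₃]; positivity
  obtain ⟨C₄, hC₄⟩ : ∃ C₄ : ℝ, C₄ = 4 * (1 + 200 * (2 + Cm)) := ⟨_, rfl⟩
  have hC₄0 : 0 < C₄ := by rw [hC₄]; positivity
  refine ⟨C₃ + C₄, by positivity, ?_⟩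
  intro 𝒩 X Y K K' h𝒩 hX hY hK1 hK'0 hK hK'
  have hXr : (16 : ℝ) ≤ X := by exact_mod_cast hX
  obtain ⟨hl1, hl2, hl3⟩ := lll hXr
  obtain ⟨L, hL⟩ : ∃ L : ℝ, L = Real.log X := ⟨_, rfl⟩
  obtain ⟨ℓ, hℓ⟩ : ∃ ℓ : ℝ, ℓ = Real.log (Real.log (Real.log X)) := ⟨_, rfl⟩
  rw [← hℓ] at hl3 ⊢
  rw [← hL] at hl1 hl2
  have hL0 : 0 < L := by linarith
  obtain ⟨X₁, hX₁⟩ : ∃ X₁ : ℕ, X₁ = ⌈24 * L⌉₊ := ⟨_, rfl⟩
  have hX₁a : 24 * L ≤ X₁ := by rw [hX₁]; exact Nat.le_ceil _
  have hX₁b : (X₁ : ℝ) ≤ 25 * L := by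
    rw [hX₁]
    have := Nat.ceil_lt_add_one (show 0 ≤ 24 * L by positivity)
    linarith
  have hX₁3 : 3 ≤ X₁ := by
    have : (3 : ℝ) ≤ X₁ := by linarith
    exact_mod_cast this
  have hX₁0 : (0 : ℝ) < X₁ := by linarith
  obtain ⟨PP, hPP⟩ : ∃ PP : Finset ℕ, PP = (Finset.Icc 1 X₁).filter Nat.Prime := ⟨_, rfl⟩
  have hYr : (1 : ℝ) ≤ Y := by exact_mod_cast hY
  have hY0 : (0 : ℝ) < Y := by linarith
  -- the weights of the members
  have hw : ∀ N ∈ 𝒩, (1 / 4 : ℝ) ≤ ∑ q ∈ PP, if q ∣ N then (1 : ℝ) / q else 0 := by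
    intro N hN
    obtain ⟨hNp, hNX⟩ := h𝒩 N hN
    have hN0 : N ≠ 0 := hNp.2.ne'
    have h1 := weight hNp
    rw [← sum_filter_add_sum_filter_not N.primeFactors (fun q => q ≤ X₁)] at h1
    have h2 : ∑ q ∈ N.primeFactors.filter (fun q => ¬ q ≤ X₁), (1 : ℝ) / q ≤ 1 / 12 := by
      calc ∑ q ∈ N.primeFactors.filter (fun q => ¬ q ≤ X₁), (1 : ℝ) / q
          ≤ ∑ q ∈ N.primeFactors.filter (fun q => ¬ q ≤ X₁), (1 : ℝ) / X₁ := by
            refine sum_le_sum fun q hq => ?_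
            have hqX := (mem_filter.1 hq).2
            push Not at hqX
            exact one_div_le_one_div_of_le hX₁0 (by exact_mod_cast hqX.le)
        _ = ((N.primeFactors.filter (fun q => ¬ q ≤ X₁)).card : ℝ) * (1 / X₁) := by
            rw [sum_const, nsmul_eq_mul]
        _ ≤ (2 * L) * (1 / (24 * L)) := by
            apply mul_le_mul _ (one_div_le_one_div_of_le (by positivity) hX₁a) (by positivity) (by positivity)
            have h3 : ((N.primeFactors.filter (fun q => ¬ q ≤ X₁)).card : ℝ) ≤ N.primeFactors.card := by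
              exact_mod_cast card_le_card (filter_subset _ _)
            have h4 := Pool.Agent.D0H92.OP.card_le_log hN0
            have h5 : Real.log N ≤ L := by
              rw [hL]
              exact Real.log_le_log (by exact_mod_cast hNp.2) (by exact_mod_cast hNX)
            linarith
        _ = 1 / 12 := by field_simp; norm_num
    have h3 : ∑ q ∈ N.primeFactors.filter (fun q => q ≤ X₁), (1 : ℝ) / q ≤
        ∑ q ∈ PP, if q ∣ N then (1 : ℝ) / q else 0 := by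
      rw [← sum_filter]
      apply sum_le_sum_of_subset_of_nonneg
      · intro q hq
        obtain ⟨h4, h5⟩ := mem_filter.1 hq
        have h6 := Nat.prime_of_mem_primeFactors h4
        rw [hPP, mem_filter, mem_filter, mem_Icc]
        exact ⟨⟨⟨h6.one_lt.le, h5⟩, h6⟩, Nat.dvd_of_mem_primeFactors h4⟩
      · intro q _ _
        positivity
    linarith
  have h1 : (𝒩.card : ℝ) * (1 / 4) ≤ ∑ N ∈ 𝒩, ∑ q ∈ PP, if q ∣ N then (1 : ℝ) / q else 0 := by
    rw [← nsmul_eq_mul, ← sum_const]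
    exact sum_le_sum hw
  rw [sum_comm] at h1
  have h2 : ∀ q ∈ PP, (∑ N ∈ 𝒩, if q ∣ N then (1 : ℝ) / q else 0) =
      ((𝒩.filter fun N => q ∣ N).card : ℝ) * (1 / q) := by
    intro q _
    rw [← sum_filter, sum_const, nsmul_eq_mul]
  rw [sum_congr rfl h2] at h1
  have hcount : ∀ q : ℕ, q.Prime → q < Y → ((𝒩.filter fun N => q ∣ N).card : ℝ) ≤ C₂ * (K * (Y : ℝ) ^ η) := by
    intro q hq hqY
    rw [hC₂]
    exact count_prime (fun N hN => (h𝒩 N hN).1) hη0 hc1 hc2 hT hK1 hK hq hqY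
  rw [← sum_filter_add_sum_filter_not PP (fun q => q < Y)] at h1
  have h3 : ∑ q ∈ PP.filter (fun q => q < Y), ((𝒩.filter fun N => q ∣ N).card : ℝ) * (1 / q) ≤
      C₂ * (K * (Y : ℝ) ^ η) * (Real.log 3 + Cm + 1 / η) * (Y : ℝ) ^ η := by
    have hY3 : 3 ≤ 3 * Y := by omega
    have hlY : 0 ≤ Real.log Y := Real.log_nonneg hYr
    have hYη : 1 ≤ (Y : ℝ) ^ η := Real.one_le_rpow hYr hη0.le
    calc ∑ q ∈ PP.filter (fun q => q < Y), ((𝒩.filter fun N => q ∣ N).card : ℝ) * (1 / q)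
        ≤ ∑ q ∈ PP.filter (fun q => q < Y), C₂ * (K * (Y : ℝ) ^ η) * (1 / q) := by
          refine sum_le_sum fun q hq => ?_
          obtain ⟨h4, h5⟩ := mem_filter.1 hq
          rw [hPP] at h4
          exact mul_le_mul_of_nonneg_right (hcount q (mem_filter.1 h4).2 h5) (by positivity)
      _ = C₂ * (K * (Y : ℝ) ^ η) * ∑ q ∈ PP.filter (fun q => q < Y), (1 : ℝ) / q := by rw [mul_sum]
      _ ≤ C₂ * (K * (Y : ℝ) ^ η) * ∑ q ∈ (Finset.Icc 1 (3 * Y)).filter Nat.Prime, (1 : ℝ) / q := by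
          apply mul_le_mul_of_nonneg_left _ (by positivity)
          apply sum_le_sum_of_subset_of_nonneg
          · intro q hq
            obtain ⟨h4, h5⟩ := mem_filter.1 hq
            rw [hPP, mem_filter, mem_Icc] at h4
            rw [mem_filter, mem_Icc]
            exact ⟨⟨h4.1.1, by omega⟩, h4.2⟩
          · intro q _ _
            positivity
      _ ≤ C₂ * (K * (Y : ℝ) ^ η) * ((Real.log 3 + Cm + 1 / η) * (Y : ℝ) ^ η) := by
          apply mul_le_mul_of_nonneg_left _ (by positivity)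
          refine (hCm (3 * Y) hY3).trans ?_
          push_cast
          have h6 : Real.log (3 * (Y : ℝ)) = Real.log 3 + Real.log Y :=
            Real.log_mul (by norm_num) hY0.ne'
          have h7 : 0 < Real.log (3 * (Y : ℝ)) := Real.log_pos (by linarith)
          have h8 := Real.log_le_sub_one_of_pos h7
          have h9 : Real.log Y ≤ (Y : ℝ) ^ η / η := Real.log_le_rpow_div hY0.le hη0
          have h10 : Real.log 3 + Cm ≤ (Real.log 3 + Cm) * (Y : ℝ) ^ η := by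
            nlinarith
          have h11 : (Y : ℝ) ^ η / η = 1 / η * (Y : ℝ) ^ η := by ring
          nlinarith
      _ = _ := by ring
  have h4 : ∑ q ∈ PP.filter (fun q => ¬ q < Y), ((𝒩.filter fun N => q ∣ N).card : ℝ) * (1 / q) ≤
      K' * (ℓ + (2 + Cm)) := by
    calc ∑ q ∈ PP.filter (fun q => ¬ q < Y), ((𝒩.filter fun N => q ∣ N).card : ℝ) * (1 / q)
        ≤ ∑ q ∈ PP.filter (fun q => ¬ q < Y), K' * (1 / q) := by
          refine sum_le_sum fun q hq => ?_
          obtain ⟨h4, h5⟩ := mem_filter.1 hq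
          rw [hPP] at h4
          exact mul_le_mul_of_nonneg_right (hK' q (mem_filter.1 h4).2 (by omega)) (by positivity)
      _ = K' * ∑ q ∈ PP.filter (fun q => ¬ q < Y), (1 : ℝ) / q := by rw [mul_sum]
      _ ≤ K' * ∑ q ∈ PP, (1 : ℝ) / q := by
          apply mul_le_mul_of_nonneg_left _ hK'0
          exact sum_le_sum_of_subset_of_nonneg (filter_subset _ _) fun q _ _ => by positivity
      _ ≤ K' * (ℓ + (2 + Cm)) := by
          apply mul_le_mul_of_nonneg_left _ hK'0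
          rw [hPP]
          refine (hCm X₁ hX₁3).trans ?_
          have h5 : Real.log X₁ ≤ Real.log 25 + Real.log L := by
            rw [← Real.log_mul (by norm_num) hL0.ne']
            exact Real.log_le_log hX₁0 hX₁b
          have h6 : Real.log 25 ≤ 4 := by
            rw [Real.log_le_iff_le_exp (by norm_num)]
            have h7 : Real.exp 4 = (Real.exp 1) ^ 4 := by rw [← Real.exp_nat_mul]; norm_num
            rw [h7]
            have h8 := Real.exp_one_gt_d9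
            have h9 : (2.7 : ℝ) ^ 4 ≤ (Real.exp 1) ^ 4 := pow_le_pow_left₀ (by norm_num) (by linarith) 4
            norm_num at h9 ⊢
            linarith
          have h7 : Real.log X₁ ≤ 5 * Real.log L := by linarith
          have h8 : Real.log (Real.log X₁) ≤ Real.log 5 + Real.log (Real.log L) := by
            rw [← Real.log_mul (by norm_num) (by linarith)]
            apply Real.log_le_log _ h7
            apply Real.log_pos
            have : (3 : ℝ) ≤ X₁ := by exact_mod_cast hX₁3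
            linarith
          have h9 : Real.log 5 ≤ 2 := by
            rw [Real.log_le_iff_le_exp (by norm_num)]
            have h7 : Real.exp 2 = (Real.exp 1) ^ 2 := by rw [← Real.exp_nat_mul]; norm_num
            rw [h7]
            have h8 := Real.exp_one_gt_d9
            nlinarith
          rw [hℓ, ← hL]
          linarith
  have h5 : ℓ + (2 + Cm) ≤ (1 + 200 * (2 + Cm)) * ℓ := by nlinarith
  have h6 : (𝒩.card : ℝ) ≤ 4 * (C₂ * (K * (Y : ℝ) ^ η) * (Real.log 3 + Cm + 1 / η) * (Y : ℝ) ^ η) +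
      4 * (K' * ((1 + 200 * (2 + Cm)) * ℓ)) := by
    have h7 := mul_le_mul_of_nonneg_left h5 hK'0
    linarith
  have h7 : (Y : ℝ) ^ η * (Y : ℝ) ^ η = (Y : ℝ) ^ ε := by
    rw [← Real.rpow_add hY0, hη]; congr 1; ring
  have h8 : 4 * (C₂ * (K * (Y : ℝ) ^ η) * (Real.log 3 + Cm + 1 / η) * (Y : ℝ) ^ η) = C₃ * (K * (Y : ℝ) ^ ε) := by
    rw [← h7, hC₃]; ring
  have h9 : 4 * (K' * ((1 + 200 * (2 + Cm)) * ℓ)) = C₄ * (K' * ℓ) := by rw [hC₄]; ring
  rw [h8, h9] at h6
  have h10 : 0 ≤ K * (Y : ℝ) ^ ε := by positivity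
  have h11 : 0 ≤ K' * ℓ := by
    have : 0 ≤ ℓ := by linarith
    positivity
  nlinarith

end Pool.Agent.D0H92.SI
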