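import Pool.Agent.D0H92.SI.Main
import Pool.Agent.D0H92.OP.PolyFam

set_option autoImplicit false

/-!
# Perfect values of polynomials in short intervals
-/

namespace Pool.Agent.D0H92.SI

open Finset Polynomial Pool.Agent.D0H92.OP

/-- members of one class -/
lemma congrB {f : ℤ[X]} {D : ℤ} {u v : ℤ[X]} (h : u * f + v * derivative f = C D) {B : ℕ} {m m' : ℤ}
    (hm : (B : ℤ) ∣ f.eval m) (hm' : (B : ℤ) ∣ f.eval m') (hD : D ^ 2 ∣ m' - m)
    (hp : ∀ p : ℕ, p.Prime → p ∣ B → ¬ (p : ℤ) ∣ D → (p : ℤ) ∣ m' - m) : (B : ℤ) ∣ D * (m' - m) := by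
  obtain ⟨k, hk⟩ := binomExpansion f m (m' - m)
  rw [add_sub_cancel] at hk
  obtain ⟨t, ht⟩ : ∃ t : ℤ, t = m' - m := ⟨_, rfl⟩
  rw [← ht] at hk hD hp ⊢
  obtain ⟨s, hs⟩ := hD
  have h1 : u.eval m * f.eval m + v.eval m * (derivative f).eval m = D := by
    have h2 := congrArg (fun g : ℤ[X] => g.eval m) h
    simpa using h2
  have h3 : (B : ℤ) ∣ D * t * (1 + v.eval m * k * D * s) := by
    have h4 : D * t * (1 + v.eval m * k * D * s) =
        v.eval m * (f.eval m' - f.eval m) + u.eval m * t * f.eval m := by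
      have h5 : D * t * (v.eval m * k * D * s) = v.eval m * k * t * (D ^ 2 * s) := by ring
      have h6 : D * t * (1 + v.eval m * k * D * s) = D * t + v.eval m * k * t * t := by
        rw [mul_add, mul_one, h5, ← hs]
      rw [h6, hk]
      linear_combination (-t) * h1
    rw [h4]
    exact dvd_add ((dvd_sub hm' hm).mul_left _) (hm.mul_left _)
  have hcop : IsCoprime (B : ℤ) (1 + v.eval m * k * D * s) := by
    rw [Int.isCoprime_iff_gcd_eq_one]
    by_contra hne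
    obtain ⟨p, hpp, hpd⟩ := Nat.exists_prime_and_dvd hne
    have hp1 : (p : ℤ) ∣ (B : ℤ) := (Int.natCast_dvd_natCast.2 hpd).trans (Int.gcd_dvd_left _ _)
    have hp2 : (p : ℤ) ∣ 1 + v.eval m * k * D * s := (Int.natCast_dvd_natCast.2 hpd).trans (Int.gcd_dvd_right _ _)
    have hpB : p ∣ B := by exact_mod_cast hp1
    have hpi : Prime (p : ℤ) := Nat.prime_iff_prime_int.1 hpp
    have hDs : (p : ℤ) ∣ D * s := by
      by_cases hpD : (p : ℤ) ∣ D
      · exact hpD.mul_right _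
      · have h5 := hp p hpp hpB hpD
        rw [hs] at h5
        rcases hpi.dvd_or_dvd h5 with h6 | h6
        · exact absurd (hpi.dvd_of_dvd_pow h6) hpD
        · exact h6.mul_left _
    have h7 : (p : ℤ) ∣ 1 := by
      have h8 : (p : ℤ) ∣ v.eval m * k * (D * s) := hDs.mul_left _
      have h9 := dvd_sub hp2 h8
      have h10 : 1 + v.eval m * k * D * s - v.eval m * k * (D * s) = 1 := by ring
      rwa [h10] at h9
    exact hpi.not_dvd_one h7
  exact hcop.dvd_of_dvd_mul_right h3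

open Classical in
/-- the number of the classes modulo a set of primes -/
lemma classes_card' {f : ℤ[X]} {D : ℤ} {u v : ℤ[X]} (h : u * f + v * derivative f = C D) (R : Finset ℕ)
    (hR : ∀ p ∈ R, p.Prime ∧ ¬ (p : ℤ) ∣ D) (T : Finset ℤ) (hT : ∀ m ∈ T, ∀ p ∈ R, (p : ℤ) ∣ f.eval m) :
    (T.image fun m : ℤ => fun p : R => ((m : ℤ) : ZMod (p : ℕ))).card ≤ f.natDegree ^ R.card := by
  have hsub : (T.image fun m : ℤ => fun p : R => ((m : ℤ) : ZMod (p : ℕ))) ⊆
      Fintype.piFinset fun p : R => Zr f (p : ℕ) := by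
    intro φ hφ
    obtain ⟨m, hm, rfl⟩ := mem_image.1 hφ
    rw [Fintype.mem_piFinset]
    intro p
    obtain ⟨hp, hpD⟩ := hR p p.2
    have hpf : ((p : ℕ) : ℤ) ∣ f.eval m := hT m hm p p.2
    have h0 : f.map (Int.castRingHom (ZMod (p : ℕ))) ≠ 0 := by
      intro h0
      have h1 := congrArg (Polynomial.map (Int.castRingHom (ZMod (p : ℕ)))) h
      rw [Polynomial.map_add, Polynomial.map_mul, Polynomial.map_mul, ← derivative_map, h0, derivative_zero, mul_zero,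
        mul_zero, add_zero, Polynomial.map_C] at h1
      have h2 : (Int.castRingHom (ZMod (p : ℕ))) D = 0 := by
        have := congrArg (fun g => Polynomial.coeff g 0) h1
        simpa using this.symm
      rw [eq_intCast, ZMod.intCast_zmod_eq_zero_iff_dvd] at h2
      exact hpD h2
    exact mem_Zr hp h0 hpf
  refine (card_le_card hsub).trans ?_
  rw [Fintype.card_piFinset]
  calc ∏ p : R, (Zr f (p : ℕ)).card ≤ ∏ _p : R, f.natDegree :=
        prod_le_prod' fun p _ => Zr_card f p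
    _ = f.natDegree ^ R.card := by
        rw [prod_const, card_univ, Fintype.card_coe]

open Classical in
/-- the number of the arguments with `B ∣ f m` -/
theorem count_B {f : ℤ[X]} (hd : 1 ≤ f.natDegree) {D : ℤ} (hD0 : D ≠ 0) {u v : ℤ[X]}
    (h : u * f + v * derivative f = C D) {B : ℕ} (hB : 1 ≤ B) (x : ℤ) (y : ℕ) (hyB : y ≤ B) :
    ((Finset.Ioc x (x + y)).filter fun m => (B : ℤ) ∣ f.eval m).card ≤
      (D.natAbs + 1) * (D.natAbs ^ 2 * f.natDegree ^ B.primeFactors.card) := by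
  set T := (Finset.Ioc x (x + y)).filter fun m => (B : ℤ) ∣ f.eval m with hT
  have hTf : ∀ m ∈ T, (B : ℤ) ∣ f.eval m := fun m hm => (mem_filter.1 hm).2
  set R : Finset ℕ := B.primeFactors.filter (fun p : ℕ => ¬ (p : ℤ) ∣ D) with hR
  have hDn : D.natAbs ≠ 0 := Int.natAbs_ne_zero.2 hD0
  have hD2 : D.natAbs ^ 2 ≠ 0 := pow_ne_zero _ hDn
  have : NeZero (D.natAbs ^ 2) := ⟨hD2⟩
  have hcl := classes_card' h R (fun p hp => ⟨Nat.prime_of_mem_primeFactors (mem_filter.1 hp).1, (mem_filter.1 hp).2⟩) T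
    (fun m hm p hp => (Int.natCast_dvd_natCast.2 (Nat.dvd_of_mem_primeFactors (mem_filter.1 hp).1)).trans (hTf m hm))
  have hRc : R.card ≤ B.primeFactors.card := card_le_card (filter_subset _ _)
  set φ : ℤ → ZMod (D.natAbs ^ 2) × (∀ p : R, ZMod (p : ℕ)) :=
    fun m => (((m : ℤ) : ZMod (D.natAbs ^ 2)), fun p : R => ((m : ℤ) : ZMod (p : ℕ))) with hφ
  have himg : (T.image φ).card ≤ D.natAbs ^ 2 * f.natDegree ^ B.primeFactors.card := by
    have h1 : T.image φ ⊆ (univ : Finset (ZMod (D.natAbs ^ 2))) ×ˢ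
        (T.image fun m : ℤ => fun p : R => ((m : ℤ) : ZMod (p : ℕ))) := by
      intro z hz
      obtain ⟨m, hm, rfl⟩ := mem_image.1 hz
      exact mem_product.2 ⟨mem_univ _, mem_image_of_mem _ hm⟩
    refine (card_le_card h1).trans ?_
    rw [card_product, card_univ, ZMod.card]
    exact Nat.mul_le_mul_left _ (hcl.trans (Nat.pow_le_pow_right hd hRc))
  refine (card_le_mul_card_image (f := φ) T (D.natAbs + 1) ?_).trans (Nat.mul_le_mul_left _ himg)
  intro z _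
  obtain ⟨g, hg⟩ : ∃ g, g = Nat.gcd B D.natAbs := ⟨_, rfl⟩
  have hg0 : 0 < g := by rw [hg]; exact Nat.gcd_pos_of_pos_left _ hB
  have hgB : g ∣ B := by rw [hg]; exact Nat.gcd_dvd_left _ _
  have hgD : g ≤ D.natAbs := by rw [hg]; exact Nat.gcd_le_right _ (Nat.pos_of_ne_zero hDn)
  have hq1 : 1 ≤ B / g := Nat.div_pos (Nat.le_of_dvd hB hgB) hg0
  have hfib := fiber_card (B / g) hq1 x y (T.filter fun m => φ m = z) (by
    intro m hm
    exact (mem_filter.1 (mem_filter.1 hm).1).1) (by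
    intro m hm m' hm'
    obtain ⟨h1, h2⟩ := mem_filter.1 hm
    obtain ⟨h3, h4⟩ := mem_filter.1 hm'
    have h5 : φ m' = φ m := h4.trans h2.symm
    have h6 : ((m' : ℤ) : ZMod (D.natAbs ^ 2)) = ((m : ℤ) : ZMod (D.natAbs ^ 2)) := congrArg Prod.fst h5
    have h7 : D ^ 2 ∣ m' - m := by
      have h8 : (((D.natAbs ^ 2 : ℕ)) : ℤ) ∣ m' - m := by
        rw [← ZMod.intCast_zmod_eq_zero_iff_dvd]
        push_cast
        push_cast at h6
        rw [h6, sub_self]
      have h9 : (((D.natAbs ^ 2 : ℕ)) : ℤ) = D ^ 2 := by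
        push_cast
        exact sq_abs D
      rwa [h9] at h8
    have h8 : (B : ℤ) ∣ D * (m' - m) := by
      apply congrB h (hTf m h1) (hTf m' h3) h7
      intro p hp hpB hpD
      have h9 := congrFun (congrArg Prod.snd h5) ⟨p, mem_filter.2 ⟨Nat.mem_primeFactors.2 ⟨hp, hpB, by omega⟩, hpD⟩⟩
      have h10 : ((m' : ℤ) : ZMod p) = ((m : ℤ) : ZMod p) := h9
      rw [← ZMod.intCast_zmod_eq_zero_iff_dvd]
      push_cast
      rw [h10, sub_self]
    -- divide by the gcd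
    have h9 : B ∣ D.natAbs * (m' - m).natAbs := by
      have h10 := Int.natAbs_dvd_natAbs.2 h8
      rwa [Int.natAbs_natCast, Int.natAbs_mul] at h10
    have h10 : B / g ∣ (m' - m).natAbs := by
      have h11 : (B / g).Coprime (D.natAbs / g) := by
        rw [hg]
        exact Nat.coprime_div_gcd_div_gcd (by rw [← hg]; exact hg0)
      have hgD' : g ∣ D.natAbs := by rw [hg]; exact Nat.gcd_dvd_right _ _
      have h12 : B / g ∣ (D.natAbs / g) * (m' - m).natAbs := by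
        obtain ⟨b, hb⟩ := hgB
        obtain ⟨e, he⟩ := hgD'
        rw [hb, he, Nat.mul_div_cancel_left _ hg0, Nat.mul_div_cancel_left _ hg0]
        rw [hb, he, mul_assoc] at h9
        exact Nat.dvd_of_mul_dvd_mul_left hg0 h9
      exact h11.dvd_of_dvd_mul_left h12
    exact Int.natCast_dvd.2 h10)
  refine hfib.trans ?_
  have h1 : y / (B / g) ≤ D.natAbs := by
    obtain ⟨b, hb⟩ := hgB
    have hbd : B / g = b := by rw [hb, Nat.mul_div_cancel_left _ hg0]
    rw [hbd] at hq1 ⊢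
    rw [Nat.div_le_iff_le_mul_add_pred (by omega)]
    have h2 : b * g ≤ b * D.natAbs := Nat.mul_le_mul_left _ hgD
    have h3 : B = b * g := by rw [hb]; ring
    omega
  omega

lemma pow_omega' (d : ℕ) (η : ℝ) (hη : 0 < η) : ∃ Cd : ℝ, 1 ≤ Cd ∧ ∀ r : ℕ, 1 ≤ r →
    (d : ℝ) ^ r.primeFactors.card ≤ Cd * (r : ℝ) ^ η := by
  obtain ⟨T, hT⟩ : ∃ T : ℕ, (d : ℝ) ≤ (T : ℝ) ^ η := by
    have h1 : Filter.Tendsto (fun n : ℕ => (n : ℝ) ^ η) Filter.atTop Filter.atTop :=
      (tendsto_rpow_atTop hη).comp tendsto_natCast_atTop_atTop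
    exact (h1.eventually_ge_atTop (d : ℝ)).exists
  refine ⟨((d : ℝ) + 1) ^ T, one_le_pow₀ (by have : (0 : ℝ) ≤ d := Nat.cast_nonneg d; linarith), ?_⟩
  intro r hr
  have hd0 : (0 : ℝ) ≤ d := Nat.cast_nonneg d
  have h1 : (d : ℝ) ^ r.primeFactors.card ≤
      ∏ p ∈ r.primeFactors, ((if p < T then (d : ℝ) + 1 else 1) * (p : ℝ) ^ η) := by
    rw [← prod_const]
    refine prod_le_prod (fun p _ => hd0) fun p hp => ?_
    have hp1 : (1 : ℝ) ≤ p := by exact_mod_cast (Nat.prime_of_mem_primeFactors hp).one_lt.le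
    have hs : (1 : ℝ) ≤ (p : ℝ) ^ η := Real.one_le_rpow hp1 hη.le
    split_ifs with h
    · nlinarith
    · rw [one_mul]
      push Not at h
      exact hT.trans (Real.rpow_le_rpow (Nat.cast_nonneg _) (by exact_mod_cast h) hη.le)
  refine h1.trans ?_
  rw [prod_mul_distrib]
  apply mul_le_mul
  · rw [← prod_filter, prod_const]
    apply pow_le_pow_right₀ (by linarith)
    have h2 : r.primeFactors.filter (fun p => p < T) ⊆ range T := by
      intro p hp
      rw [mem_range]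
      exact (mem_filter.1 hp).2
    have := card_le_card h2
    rwa [card_range] at this
  · rw [Real.finsetProd_rpow _ _ (fun p _ => Nat.cast_nonneg p)]
    apply Real.rpow_le_rpow (prod_nonneg fun p _ => Nat.cast_nonneg p) _ hη.le
    have h2 := Nat.le_of_dvd (by omega) (Nat.prod_primeFactors_dvd r)
    have h3 : ((∏ p ∈ r.primeFactors, p : ℕ) : ℝ) ≤ r := by exact_mod_cast h2
    rwa [Nat.cast_prod] at h3
  · exact prod_nonneg fun p _ => by positivity
  · positivity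

/-- iterated logarithms of polynomially related numbers -/
lemma lll_poly (H : ℝ) (hH : 1 ≤ H) (d : ℕ) : ∃ C : ℝ, 0 < C ∧ ∀ Z : ℝ, 16 ≤ Z → ∀ W : ℝ, 16 ≤ W → W ≤ H * (Z + 1) ^ d + 17 →
    Real.log (Real.log (Real.log W)) ≤ C * Real.log (Real.log (Real.log Z)) := by
  obtain ⟨k, hk⟩ : ∃ k : ℝ, k = Real.log H + 2 * d + 3 := ⟨_, rfl⟩
  have hlH : 0 ≤ Real.log H := Real.log_nonneg hH
  have hd0 : (0 : ℝ) ≤ d := Nat.cast_nonneg d
  have hk3 : 3 ≤ k := by rw [hk]; linarith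
  have hlk : 0 ≤ Real.log k := Real.log_nonneg (by linarith)
  have hlk2 : 0 ≤ Real.log (Real.log k + 1) := Real.log_nonneg (by linarith)
  refine ⟨200 * Real.log (Real.log k + 1) + 1, by positivity, ?_⟩
  intro Z hZ W hW hWZ
  obtain ⟨z1, z2, z3⟩ := lll hZ
  obtain ⟨w1, w2, w3⟩ := lll hW
  have hZ0 : 0 < Z := by linarith
  have hlZ : 0 < Real.log Z := by linarith
  -- log W ≤ k log Z
  have h1 : Real.log W ≤ k * Real.log Z := by
    have h2 : W ≤ H * (Z ^ 2) ^ d * Z ^ 3 := by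
      have h3 : (Z + 1) ^ d ≤ (Z ^ 2) ^ d := pow_le_pow_left₀ (by linarith) (by nlinarith) d
      have h4 : (1 : ℝ) ≤ (Z ^ 2) ^ d := one_le_pow₀ (by nlinarith)
      have h5 : H * (Z + 1) ^ d ≤ H * (Z ^ 2) ^ d := mul_le_mul_of_nonneg_left h3 (by linarith)
      have h6 : 1 ≤ H * (Z ^ 2) ^ d := by nlinarith
      have h7 : (18 : ℝ) ≤ Z ^ 3 := by nlinarith [sq_nonneg Z]
      nlinarith
    have h3 := Real.log_le_log (by linarith) h2
    have hp1 : H * (Z ^ 2) ^ d ≠ 0 := by positivity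
    have hp2 : (Z ^ 2) ^ d ≠ 0 := by positivity
    rw [Real.log_mul hp1 (by positivity), Real.log_mul (by linarith) hp2, Real.log_pow, Real.log_pow, Real.log_pow] at h3
    push_cast at h3
    have h4 : Real.log H ≤ Real.log H * Real.log Z := by nlinarith
    rw [hk]
    nlinarith
  have h2 : Real.log (Real.log W) ≤ Real.log k + Real.log (Real.log Z) := by
    rw [← Real.log_mul (by linarith) hlZ.ne']
    exact Real.log_le_log (by linarith) h1
  have h3 : Real.log (Real.log W) ≤ (Real.log k + 1) * Real.log (Real.log Z) := by nlinarith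
  have h4 : Real.log (Real.log (Real.log W)) ≤ Real.log (Real.log k + 1) + Real.log (Real.log (Real.log Z)) := by
    rw [← Real.log_mul (by linarith) (by linarith)]
    exact Real.log_le_log (by linarith) h3
  nlinarith

open Classical in
theorem poly_short (f : ℤ[X]) (hd : 1 ≤ f.natDegree) (hf : Squarefree (f.map (Int.castRingHom ℚ))) (ε : ℝ) (hε : 0 < ε) :
    ∃ C₀ : ℝ, 0 < C₀ ∧ ∀ (x : ℤ) (y : ℕ), 1 ≤ y → 16 ≤ x.natAbs + y →
      (((Finset.Ioc x (x + y)).filter fun m => (f.eval m).toNat.Perfect).card : ℝ) ≤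
        C₀ * ((y : ℝ) ^ ε + Real.log (Real.log (Real.log ((x.natAbs + y : ℕ) : ℝ)))) := by
  obtain ⟨D, u, v, hD0, hrel⟩ := exists_rel f hf
  obtain ⟨d, hdd⟩ : ∃ d : ℕ, d = f.natDegree := ⟨_, rfl⟩
  have hd1 : (1 : ℝ) ≤ d := by rw [hdd]; exact_mod_cast hd
  obtain ⟨Cd, hCd1, hCd⟩ := pow_omega' d (ε / 4) (by positivity)
  obtain ⟨H, hH1, hH⟩ := eval_bound f
  obtain ⟨C₁, hC₁0, hC₁⟩ := lll_poly H hH1 d
  obtain ⟨C₂, hC₂0, hC₂⟩ := crit (ε / 2) (by positivity)
  obtain ⟨Δ, hΔ⟩ : ∃ Δ : ℝ, Δ = ((D.natAbs : ℝ) + 1) * (D.natAbs : ℝ) ^ 2 := ⟨_, rfl⟩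
  have hDn : (1 : ℝ) ≤ D.natAbs := by exact_mod_cast Nat.one_le_iff_ne_zero.2 (Int.natAbs_ne_zero.2 hD0)
  have hΔ1 : 1 ≤ Δ := by
    rw [hΔ]
    have : (1 : ℝ) ≤ (D.natAbs : ℝ) ^ 2 := one_le_pow₀ hDn
    nlinarith
  refine ⟨d * C₂ * (Δ * Cd * (2 : ℝ) ^ (ε / 4) + Δ * d * C₁), by positivity, ?_⟩
  intro x y hy hxy
  set J := Finset.Ioc x (x + y) with hJ
  set T := J.filter fun m => (f.eval m).toNat.Perfect with hT
  set 𝒩 := T.image fun m => (f.eval m).toNat with h𝒩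
  have hyr : (1 : ℝ) ≤ y := by exact_mod_cast hy
  have hy0 : (0 : ℝ) < y := by linarith
  have hZr : (16 : ℝ) ≤ ((x.natAbs + y : ℕ) : ℝ) := by exact_mod_cast hxy
  obtain ⟨Z, hZ⟩ : ∃ Z : ℝ, Z = ((x.natAbs + y : ℕ) : ℝ) := ⟨_, rfl⟩
  rw [← hZ] at hZr ⊢
  obtain ⟨z1, z2, z3⟩ := lll hZr
  -- the bound of the values
  obtain ⟨X, hX⟩ : ∃ X : ℕ, X = ⌈H * (Z + 1) ^ d⌉₊ + 16 := ⟨_, rfl⟩
  have hpos : 0 ≤ H * (Z + 1) ^ d := by positivity
  have hXle : (X : ℝ) ≤ H * (Z + 1) ^ d + 17 := by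
    rw [hX]
    push_cast
    have := Nat.ceil_lt_add_one hpos
    linarith
  have hX16 : 16 ≤ X := by omega
  have hperf : ∀ m ∈ T, (f.eval m).toNat.Perfect := fun m hm => (mem_filter.1 hm).2
  have hcast : ∀ m ∈ T, (((f.eval m).toNat : ℕ) : ℤ) = f.eval m := by
    intro m hm
    have h1 := (hperf m hm).2
    omega
  have hNX : ∀ N ∈ 𝒩, N.Perfect ∧ N ≤ X := by
    intro N hN
    obtain ⟨m, hm, rfl⟩ := mem_image.1 hN
    refine ⟨hperf m hm, ?_⟩
    have hmJ := mem_Ioc.1 (mem_filter.1 hm).1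
    have hmx : |(m : ℝ)| ≤ Z := by
      have a1 : (x : ℝ) < m := by exact_mod_cast hmJ.1
      have a2 : (m : ℝ) ≤ x + y := by exact_mod_cast hmJ.2
      have a3 := neg_abs_le (x : ℝ)
      have a4 := le_abs_self (x : ℝ)
      have a5 : ((x.natAbs : ℕ) : ℝ) = |(x : ℝ)| := by
        rw [Nat.cast_natAbs, Int.cast_abs]
      rw [hZ]
      push_cast
      rw [a5, abs_le]
      constructor <;> linarith
    have h1 : ((f.eval m : ℤ) : ℝ) ≤ H * (Z + 1) ^ d := by
      refine (hH m).trans ?_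
      rw [← hdd]
      apply mul_le_mul_of_nonneg_left _ (by linarith)
      exact pow_le_pow_left₀ (by positivity) (by linarith) _
    have h2 : (((f.eval m).toNat : ℕ) : ℝ) ≤ H * (Z + 1) ^ d := by
      have h3 : (((f.eval m).toNat : ℕ) : ℝ) = ((f.eval m : ℤ) : ℝ) := by
        have := congrArg (Int.cast (R := ℝ)) (hcast m hm)
        push_cast at this
        exact this
      rw [h3]; exact h1
    have h3 : (((f.eval m).toNat : ℕ) : ℝ) ≤ (⌈H * (Z + 1) ^ d⌉₊ : ℝ) := h2.trans (Nat.le_ceil _)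
    have h4 : (f.eval m).toNat ≤ ⌈H * (Z + 1) ^ d⌉₊ := by exact_mod_cast h3
    omega
  have hcount : ∀ B : ℕ, y ≤ B → ((𝒩.filter fun N => B ∣ N).card : ℝ) ≤ Δ * (d : ℝ) ^ B.primeFactors.card := by
    intro B hB
    have h1 : (𝒩.filter fun N => B ∣ N).card ≤ (J.filter fun m => (B : ℤ) ∣ f.eval m).card := by
      have h2 : (𝒩.filter fun N => B ∣ N) ⊆ (J.filter fun m => (B : ℤ) ∣ f.eval m).image fun m => (f.eval m).toNat := by
        intro N hN
        obtain ⟨h3, h4⟩ := mem_filter.1 hN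
        obtain ⟨m, hm, rfl⟩ := mem_image.1 h3
        refine mem_image.2 ⟨m, mem_filter.2 ⟨(mem_filter.1 hm).1, ?_⟩, rfl⟩
        rw [← hcast m hm]
        exact_mod_cast h4
      exact (card_le_card h2).trans card_image_le
    have h2 := count_B hd hD0 hrel (B := B) (by omega) x y hB
    rw [← hdd] at h2
    have h3 : ((𝒩.filter fun N => B ∣ N).card : ℝ) ≤
        (((D.natAbs + 1) * (D.natAbs ^ 2 * d ^ B.primeFactors.card) : ℕ) : ℝ) := by exact_mod_cast h1.trans h2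
    refine h3.trans (le_of_eq ?_)
    rw [hΔ]
    push_cast
    ring
  obtain ⟨K, hK⟩ : ∃ K : ℝ, K = Δ * Cd * (2 : ℝ) ^ (ε / 4) * (y : ℝ) ^ (ε / 2) := ⟨_, rfl⟩
  have hK1 : 1 ≤ K := by
    rw [hK]
    have h1 : (1 : ℝ) ≤ (2 : ℝ) ^ (ε / 4) := Real.one_le_rpow (by norm_num) (by positivity)
    have h2 : (1 : ℝ) ≤ (y : ℝ) ^ (ε / 2) := Real.one_le_rpow hyr (by positivity)
    have h3 : 1 ≤ Δ * Cd := by nlinarith
    have h4 : 1 ≤ Δ * Cd * (2 : ℝ) ^ (ε / 4) := by nlinarith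
    nlinarith
  have hmain := hC₂ 𝒩 X y K (Δ * d) hNX hX16 hy hK1 (by positivity) (by
    intro B hB hB2
    refine (hcount B hB).trans ?_
    have hB1 : 1 ≤ B := by omega
    have hB0 : (0 : ℝ) < B := by exact_mod_cast hB1
    calc Δ * (d : ℝ) ^ B.primeFactors.card ≤ Δ * (Cd * (B : ℝ) ^ (ε / 4)) :=
          mul_le_mul_of_nonneg_left (hCd B hB1) (by linarith)
      _ ≤ Δ * (Cd * ((2 : ℝ) ^ (ε / 4) * (y : ℝ) ^ (ε / 2))) := by
          apply mul_le_mul_of_nonneg_left _ (by linarith)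
          apply mul_le_mul_of_nonneg_left _ (by linarith)
          have h1 : (B : ℝ) ≤ 2 * (y : ℝ) ^ 2 := by exact_mod_cast hB2.le
          calc (B : ℝ) ^ (ε / 4) ≤ (2 * (y : ℝ) ^ 2) ^ (ε / 4) := Real.rpow_le_rpow hB0.le h1 (by positivity)
            _ = (2 : ℝ) ^ (ε / 4) * (y : ℝ) ^ (ε / 2) := by
                rw [Real.mul_rpow (by norm_num) (by positivity), ← Real.rpow_natCast, ← Real.rpow_mul hy0.le]
                congr 2
                push_cast
                ring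
      _ = K := by rw [hK]; ring) (by
    intro q hq hqy
    refine (hcount q hqy).trans (le_of_eq ?_)
    rw [Nat.Prime.primeFactors hq, card_singleton, pow_one])
  have h1 : T.card ≤ d * 𝒩.card := by
    apply card_le_mul_card_image (f := fun m : ℤ => (f.eval m).toNat) T d
    intro N hN
    obtain ⟨m₀, hm₀, h0⟩ := mem_image.1 hN
    have h2 : (T.filter fun m => (f.eval m).toNat = N) ⊆ T.filter fun m => f.eval m = (N : ℤ) := by
      intro m hm
      obtain ⟨h3, h4⟩ := mem_filter.1 hm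
      refine mem_filter.2 ⟨h3, ?_⟩
      rw [← hcast m h3]
      exact_mod_cast h4
    refine (card_le_card h2).trans ?_
    rw [hdd]
    exact fiber_deg f hd T N
  have h2 : (T.card : ℝ) ≤ d * (𝒩.card : ℝ) := by exact_mod_cast h1
  have hX16r : (16 : ℝ) ≤ X := by exact_mod_cast hX16
  have h3 := hC₁ Z hZr X hX16r hXle
  have h4 : (y : ℝ) ^ (ε / 2) * (y : ℝ) ^ (ε / 2) = (y : ℝ) ^ ε := by
    rw [← Real.rpow_add hy0]; congr 1; ring
  obtain ⟨ℓ, hℓ⟩ : ∃ ℓ : ℝ, ℓ = Real.log (Real.log (Real.log Z)) := ⟨_, rfl⟩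
  rw [← hℓ] at h3 z3 ⊢
  have h5 : K * (y : ℝ) ^ (ε / 2) = Δ * Cd * (2 : ℝ) ^ (ε / 4) * (y : ℝ) ^ ε := by
    rw [← h4, hK]; ring
  rw [h5] at hmain
  have h6 : Δ * d * Real.log (Real.log (Real.log (X : ℝ))) ≤ Δ * d * (C₁ * ℓ) :=
    mul_le_mul_of_nonneg_left h3 (by positivity)
  have hA : 0 ≤ Δ * Cd * (2 : ℝ) ^ (ε / 4) := by positivity
  have hE : 0 ≤ Δ * d * C₁ := by positivity
  have hYe : 0 ≤ (y : ℝ) ^ ε := by positivity
  have hl0 : 0 ≤ ℓ := by linarith
  calc (T.card : ℝ) ≤ d * (𝒩.card : ℝ) := h2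
    _ ≤ d * (C₂ * (Δ * Cd * (2 : ℝ) ^ (ε / 4) * (y : ℝ) ^ ε + Δ * d * (C₁ * ℓ))) := by
        apply mul_le_mul_of_nonneg_left _ (by positivity)
        refine hmain.trans ?_
        apply mul_le_mul_of_nonneg_left _ hC₂0.le
        linarith
    _ = d * C₂ * (Δ * Cd * (2 : ℝ) ^ (ε / 4) * (y : ℝ) ^ ε + Δ * d * C₁ * ℓ) := by ring
    _ ≤ d * C₂ * ((Δ * Cd * (2 : ℝ) ^ (ε / 4) + Δ * d * C₁) * ((y : ℝ) ^ ε + ℓ)) := by
        apply mul_le_mul_of_nonneg_left _ (by positivity)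
        nlinarith [mul_nonneg hA hl0, mul_nonneg hE hYe]
    _ = _ := by ring

end Pool.Agent.D0H92.SI
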