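import Pool.Agent.D0H92.SI.Club2
import Pool.Agent.D0H92.SI.Ap
import Pool.Agent.D0H92.SI.Pol

set_option autoImplicit false

/-!
# Members of an abundancy club in progressions and among the values of a polynomial
-/

namespace Pool.Agent.D0H92.SI

open Finset Polynomial Pool.Agent.D0H92.OP

open Classical in
theorem poly_club (f : ℤ[X]) (hd : 1 ≤ f.natDegree) (hf : Squarefree (f.map (Int.castRingHom ℚ))) (ε α₀ : ℝ) (hε : 0 < ε) :
    ∃ C₀ : ℝ, 0 < C₀ ∧ ∀ (a b : ℕ), 0 < a → 0 < b → (a : ℝ) ≤ α₀ * b → ∀ (x : ℤ) (y : ℕ), 1 ≤ y → 16 ≤ x.natAbs + y →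
      (((Finset.Ioc x (x + y)).filter fun m => Ab a b (f.eval m).toNat).card : ℝ) ≤
        C₀ * (y : ℝ) ^ ε * (1 + Real.log (Real.log (Real.log ((x.natAbs + y : ℕ) : ℝ)))) := by
  obtain ⟨D, u, v, hD0, hrel⟩ := exists_rel f hf
  obtain ⟨d, hdd⟩ : ∃ d : ℕ, d = f.natDegree := ⟨_, rfl⟩
  have hd1 : (1 : ℝ) ≤ d := by rw [hdd]; exact_mod_cast hd
  obtain ⟨Cd, hCd1, hCd⟩ := pow_omega' d (ε / 4) (by positivity)
  obtain ⟨H, hH1, hH⟩ := eval_bound f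
  obtain ⟨C₁, hC₁0, hC₁⟩ := lll_poly H hH1 d
  obtain ⟨C₂, hC₂0, hC₂⟩ := club_crit (ε / 2) α₀ (by positivity)
  obtain ⟨Δ, hΔ⟩ : ∃ Δ : ℝ, Δ = ((D.natAbs : ℝ) + 1) * (D.natAbs : ℝ) ^ 2 := ⟨_, rfl⟩
  have hDn : (1 : ℝ) ≤ D.natAbs := by exact_mod_cast Nat.one_le_iff_ne_zero.2 (Int.natAbs_ne_zero.2 hD0)
  have hΔ1 : 1 ≤ Δ := by
    rw [hΔ]
    have : (1 : ℝ) ≤ (D.natAbs : ℝ) ^ 2 := one_le_pow₀ hDn
    nlinarith
  refine ⟨d * C₂ * (Δ * Cd * (2 : ℝ) ^ (ε / 4) + Δ * d * C₁), by positivity, ?_⟩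
  intro a b ha hb hab x y hy hxy
  set J := Finset.Ioc x (x + y) with hJ
  set T := J.filter fun m => Ab a b (f.eval m).toNat with hT
  set 𝒩 := T.image fun m => (f.eval m).toNat with h𝒩
  have hyr : (1 : ℝ) ≤ y := by exact_mod_cast hy
  have hy0 : (0 : ℝ) < y := by linarith
  have hZr : (16 : ℝ) ≤ ((x.natAbs + y : ℕ) : ℝ) := by exact_mod_cast hxy
  obtain ⟨Z, hZ⟩ : ∃ Z : ℝ, Z = ((x.natAbs + y : ℕ) : ℝ) := ⟨_, rfl⟩
  rw [← hZ] at hZr ⊢
  obtain ⟨z1, z2, z3⟩ := lll hZr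
  -- the bound of the values
  obtain ⟨X, hX⟩ : ∃ X : ℕ, X = ⌈H * (Z + 1) ^ d⌉₊ + 16 := ⟨_, rfl⟩
  have hpos : 0 ≤ H * (Z + 1) ^ d := by positivity
  have hXle : (X : ℝ) ≤ H * (Z + 1) ^ d + 17 := by
    rw [hX]
    push_cast
    have := Nat.ceil_lt_add_one hpos
    linarith
  have hX16 : 16 ≤ X := by omega
  have hperf : ∀ m ∈ T, Ab a b (f.eval m).toNat := fun m hm => (mem_filter.1 hm).2
  have hcast : ∀ m ∈ T, (((f.eval m).toNat : ℕ) : ℤ) = f.eval m := by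
    intro m hm
    have h1 := (hperf m hm).2
    omega
  have hNX : ∀ N ∈ 𝒩, Ab a b N ∧ N ≤ X := by
    intro N hN
    obtain ⟨m, hm, rfl⟩ := mem_image.1 hN
    refine ⟨hperf m hm, ?_⟩
    have hmJ := mem_Ioc.1 (mem_filter.1 hm).1
    have hmx : |(m : ℝ)| ≤ Z := by
      have a1 : (x : ℝ) < m := by exact_mod_cast hmJ.1
      have a2 : (m : ℝ) ≤ x + y := by exact_mod_cast hmJ.2
      have a3 := neg_abs_le (x : ℝ)
      have a4 := le_abs_self (x : ℝ)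
      have a5 : ((x.natAbs : ℕ) : ℝ) = |(x : ℝ)| := by
        rw [Nat.cast_natAbs, Int.cast_abs]
      rw [hZ]
      push_cast
      rw [a5, abs_le]
      constructor <;> linarith
    have h1 : ((f.eval m : ℤ) : ℝ) ≤ H * (Z + 1) ^ d := by
      refine (hH m).trans ?_
      rw [← hdd]
      apply mul_le_mul_of_nonneg_left _ (by linarith)
      exact pow_le_pow_left₀ (by positivity) (by linarith) _
    have h2 : (((f.eval m).toNat : ℕ) : ℝ) ≤ H * (Z + 1) ^ d := by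
      have h3 : (((f.eval m).toNat : ℕ) : ℝ) = ((f.eval m : ℤ) : ℝ) := by
        have := congrArg (Int.cast (R := ℝ)) (hcast m hm)
        push_cast at this
        exact this
      rw [h3]; exact h1
    have h3 : (((f.eval m).toNat : ℕ) : ℝ) ≤ (⌈H * (Z + 1) ^ d⌉₊ : ℝ) := h2.trans (Nat.le_ceil _)
    have h4 : (f.eval m).toNat ≤ ⌈H * (Z + 1) ^ d⌉₊ := by exact_mod_cast h3
    omega
  have hcount : ∀ B : ℕ, y ≤ B → ((𝒩.filter fun N => B ∣ N).card : ℝ) ≤ Δ * (d : ℝ) ^ B.primeFactors.card := by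
    intro B hB
    have h1 : (𝒩.filter fun N => B ∣ N).card ≤ (J.filter fun m => (B : ℤ) ∣ f.eval m).card := by
      have h2 : (𝒩.filter fun N => B ∣ N) ⊆ (J.filter fun m => (B : ℤ) ∣ f.eval m).image fun m => (f.eval m).toNat := by
        intro N hN
        obtain ⟨h3, h4⟩ := mem_filter.1 hN
        obtain ⟨m, hm, rfl⟩ := mem_image.1 h3
        refine mem_image.2 ⟨m, mem_filter.2 ⟨(mem_filter.1 hm).1, ?_⟩, rfl⟩
        rw [← hcast m hm]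
        exact_mod_cast h4
      exact (card_le_card h2).trans card_image_le
    have h2 := count_B hd hD0 hrel (B := B) (by omega) x y hB
    rw [← hdd] at h2
    have h3 : ((𝒩.filter fun N => B ∣ N).card : ℝ) ≤
        (((D.natAbs + 1) * (D.natAbs ^ 2 * d ^ B.primeFactors.card) : ℕ) : ℝ) := by exact_mod_cast h1.trans h2
    refine h3.trans (le_of_eq ?_)
    rw [hΔ]
    push_cast
    ring
  obtain ⟨K, hK⟩ : ∃ K : ℝ, K = Δ * Cd * (2 : ℝ) ^ (ε / 4) * (y : ℝ) ^ (ε / 2) := ⟨_, rfl⟩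
  have hK1 : 1 ≤ K := by
    rw [hK]
    have h1 : (1 : ℝ) ≤ (2 : ℝ) ^ (ε / 4) := Real.one_le_rpow (by norm_num) (by positivity)
    have h2 : (1 : ℝ) ≤ (y : ℝ) ^ (ε / 2) := Real.one_le_rpow hyr (by positivity)
    have h3 : 1 ≤ Δ * Cd := by nlinarith
    have h4 : 1 ≤ Δ * Cd * (2 : ℝ) ^ (ε / 4) := by nlinarith
    nlinarith
  have hmain := hC₂ a b 𝒩 X y K (Δ * d) ha hb hab hNX hX16 hy hK1 (by positivity) (by
    intro B hB hB2
    refine (hcount B hB).trans ?_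
    have hB1 : 1 ≤ B := by omega
    have hB0 : (0 : ℝ) < B := by exact_mod_cast hB1
    calc Δ * (d : ℝ) ^ B.primeFactors.card ≤ Δ * (Cd * (B : ℝ) ^ (ε / 4)) :=
          mul_le_mul_of_nonneg_left (hCd B hB1) (by linarith)
      _ ≤ Δ * (Cd * ((2 : ℝ) ^ (ε / 4) * (y : ℝ) ^ (ε / 2))) := by
          apply mul_le_mul_of_nonneg_left _ (by linarith)
          apply mul_le_mul_of_nonneg_left _ (by linarith)
          have h1 : (B : ℝ) ≤ 2 * (y : ℝ) ^ 2 := by exact_mod_cast hB2.le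
          calc (B : ℝ) ^ (ε / 4) ≤ (2 * (y : ℝ) ^ 2) ^ (ε / 4) := Real.rpow_le_rpow hB0.le h1 (by positivity)
            _ = (2 : ℝ) ^ (ε / 4) * (y : ℝ) ^ (ε / 2) := by
                rw [Real.mul_rpow (by norm_num) (by positivity), ← Real.rpow_natCast, ← Real.rpow_mul hy0.le]
                congr 2
                push_cast
                ring
      _ = K := by rw [hK]; ring) (by
    intro q hq hqy
    refine (hcount q hqy).trans (le_of_eq ?_)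
    rw [Nat.Prime.primeFactors hq, card_singleton, pow_one])
  have h1 : T.card ≤ d * 𝒩.card := by
    apply card_le_mul_card_image (f := fun m : ℤ => (f.eval m).toNat) T d
    intro N hN
    obtain ⟨m₀, hm₀, h0⟩ := mem_image.1 hN
    have h2 : (T.filter fun m => (f.eval m).toNat = N) ⊆ T.filter fun m => f.eval m = (N : ℤ) := by
      intro m hm
      obtain ⟨h3, h4⟩ := mem_filter.1 hm
      refine mem_filter.2 ⟨h3, ?_⟩
      rw [← hcast m h3]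
      exact_mod_cast h4
    refine (card_le_card h2).trans ?_
    rw [hdd]
    exact fiber_deg f hd T N
  have h2 : (T.card : ℝ) ≤ d * (𝒩.card : ℝ) := by exact_mod_cast h1
  have hX16r : (16 : ℝ) ≤ X := by exact_mod_cast hX16
  have h3 := hC₁ Z hZr X hX16r hXle
  have h4 : (y : ℝ) ^ (ε / 2) * (y : ℝ) ^ (ε / 2) = (y : ℝ) ^ ε := by
    rw [← Real.rpow_add hy0]; congr 1; ring
  obtain ⟨ℓ, hℓ⟩ : ∃ ℓ : ℝ, ℓ = Real.log (Real.log (Real.log Z)) := ⟨_, rfl⟩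
  rw [← hℓ] at h3 z3 ⊢
  have h5 : K * (y : ℝ) ^ (ε / 2) = Δ * Cd * (2 : ℝ) ^ (ε / 4) * (y : ℝ) ^ ε := by
    rw [← h4, hK]; ring
  have h6 : Δ * d * Real.log (Real.log (Real.log (X : ℝ))) ≤ Δ * d * (C₁ * ℓ) :=
    mul_le_mul_of_nonneg_left h3 (by positivity)
  have hA : 0 ≤ Δ * Cd * (2 : ℝ) ^ (ε / 4) := by positivity
  have hE : 0 ≤ Δ * d * C₁ := by positivity
  have hYe : 0 < (y : ℝ) ^ ε := by positivity
  have hYe2 : 1 ≤ (y : ℝ) ^ (ε / 2) := Real.one_le_rpow hyr (by positivity)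
  have hYle : (y : ℝ) ^ (ε / 2) ≤ (y : ℝ) ^ ε := by rw [← h4]; nlinarith
  have hl0 : 0 ≤ ℓ := by linarith
  have h7 : (y : ℝ) ^ (ε / 2) * (K + Δ * d * Real.log (Real.log (Real.log (X : ℝ)))) ≤
      Δ * Cd * (2 : ℝ) ^ (ε / 4) * (y : ℝ) ^ ε + Δ * d * C₁ * ℓ * (y : ℝ) ^ ε := by
    have h8 : (y : ℝ) ^ (ε / 2) * (Δ * d * Real.log (Real.log (Real.log (X : ℝ)))) ≤ (y : ℝ) ^ (ε / 2) * (Δ * d * (C₁ * ℓ)) :=
      mul_le_mul_of_nonneg_left h6 (by positivity)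
    have h9 : (y : ℝ) ^ (ε / 2) * (Δ * d * (C₁ * ℓ)) ≤ (y : ℝ) ^ ε * (Δ * d * (C₁ * ℓ)) :=
      mul_le_mul_of_nonneg_right hYle (by positivity)
    calc (y : ℝ) ^ (ε / 2) * (K + Δ * d * Real.log (Real.log (Real.log (X : ℝ))))
        = K * (y : ℝ) ^ (ε / 2) + (y : ℝ) ^ (ε / 2) * (Δ * d * Real.log (Real.log (Real.log (X : ℝ)))) := by ring
      _ ≤ K * (y : ℝ) ^ (ε / 2) + (y : ℝ) ^ ε * (Δ * d * (C₁ * ℓ)) := by linarith
      _ = _ := by rw [h5]; ring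
  calc (T.card : ℝ) ≤ d * (𝒩.card : ℝ) := h2
    _ ≤ d * (C₂ * ((y : ℝ) ^ (ε / 2) * (K + Δ * d * Real.log (Real.log (Real.log (X : ℝ)))))) := by
        apply mul_le_mul_of_nonneg_left _ (by positivity)
        rw [← mul_assoc]
        exact hmain
    _ ≤ d * (C₂ * (Δ * Cd * (2 : ℝ) ^ (ε / 4) * (y : ℝ) ^ ε + Δ * d * C₁ * ℓ * (y : ℝ) ^ ε)) := by
        apply mul_le_mul_of_nonneg_left _ (by positivity)
        exact mul_le_mul_of_nonneg_left h7 hC₂0.le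
    _ = d * C₂ * (y : ℝ) ^ ε * (Δ * Cd * (2 : ℝ) ^ (ε / 4) + Δ * d * C₁ * ℓ) := by ring
    _ ≤ d * C₂ * (y : ℝ) ^ ε * ((Δ * Cd * (2 : ℝ) ^ (ε / 4) + Δ * d * C₁) * (1 + ℓ)) := by
        apply mul_le_mul_of_nonneg_left _ (by positivity)
        nlinarith [mul_nonneg hA hl0, hE]
    _ = _ := by ring

open Classical in
/-- Members of one club in progressions. -/
theorem ap_club (ε α₀ : ℝ) (hε : 0 < ε) : ∃ C : ℝ, 0 < C ∧ ∀ a b : ℕ, 0 < a → 0 < b → (a : ℝ) ≤ α₀ * b →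
    ∀ x y Q r : ℕ, 1 ≤ y → 1 ≤ Q → 16 ≤ x + Q * y →
    (((Finset.Ioc x (x + Q * y)).filter fun n => n ≡ r [MOD Q] ∧ Ab a b n).card : ℝ) ≤
      C * ((y * Nat.gcd r Q : ℕ) : ℝ) ^ ε * (1 + Real.log (Real.log (Real.log ((x + Q * y : ℕ) : ℝ)))) := by
  obtain ⟨C, hC, h⟩ := club_crit ε α₀ hε
  refine ⟨C, hC, ?_⟩
  intro a b ha hb hab x y Q r hy hQ hX
  set 𝒩 := (Finset.Ioc x (x + Q * y)).filter fun n => n ≡ r [MOD Q] ∧ Ab a b n with h𝒩
  have hg : 0 < Nat.gcd r Q := Nat.gcd_pos_of_pos_right _ hQ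
  have hone : ∀ B : ℕ, y * Nat.gcd r Q ≤ B → ((𝒩.filter fun N => B ∣ N).card : ℝ) ≤ 1 := by
    intro B hB
    have hgd : ∀ n, n ≡ r [MOD Q] → B ∣ n → Nat.gcd Q B ≤ Nat.gcd r Q := by
      intro n hn hBn
      apply Nat.le_of_dvd hg
      apply Nat.dvd_gcd _ (Nat.gcd_dvd_left _ _)
      exact (hn.dvd_iff (Nat.gcd_dvd_left Q B)).1 ((Nat.gcd_dvd_right Q B).trans hBn)
    have h1 : (𝒩.filter fun N => B ∣ N).card ≤ 1 := by
      rw [card_le_one]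
      have key : ∀ n ∈ 𝒩.filter (fun N => B ∣ N), ∀ n' ∈ 𝒩.filter (fun N => B ∣ N), ¬ n < n' := by
        intro n hn n' hn'
        obtain ⟨h1, h2⟩ := mem_filter.1 hn
        obtain ⟨h3, h4⟩ := mem_filter.1 hn'
        obtain ⟨h5, h6, -⟩ := mem_filter.1 h1
        obtain ⟨h7, h8, -⟩ := mem_filter.1 h3
        exact one_multiple hQ (d := Nat.gcd r Q) hg hB hgd h5 h7 h6 h8 h2 h4
      intro n hn n' hn'
      rcases lt_trichotomy n n' with h2 | h2 | h2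
      · exact absurd h2 (key n hn n' hn')
      · exact h2
      · exact absurd h2 (key n' hn' n hn)
    exact_mod_cast h1
  have h1 := h a b 𝒩 (x + Q * y) (y * Nat.gcd r Q) 1 1 ha hb hab
    (fun N hN => ⟨(mem_filter.1 hN).2.2, (mem_Ioc.1 (mem_filter.1 hN).1).2⟩)
    hX (Nat.mul_pos hy hg) le_rfl (by norm_num) (fun B hB _ => hone B hB) (fun q _ hqY => hone q hqY)
  rw [one_mul] at h1
  exact h1

end Pool.Agent.D0H92.SI
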