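import Mathlib

set_option autoImplicit false

/-!
# Unitary divisors of perfect numbers: the recursion of Hornfeck and Wirsing for sets of perfect numbers

Let `A` be a proper unitary divisor of a perfect number `N`, `1 < A`. Then some prime factor `p < 2 A` of `N / A` is determined
by `A` alone. So in a finite set of perfect numbers the members with the unitary divisor `A` are distributed among the unitary
divisors `A p ^ e`; this is stopped as soon as there is a divisor `B ≥ Y`.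
-/

namespace Pool.Agent.D0H92.SI

open Finset

/-- sum of divisors -/
def sg (n : ℕ) : ℕ := ∑ d ∈ n.divisors, d

lemma sg_mul {a b : ℕ} (h : a.Coprime b) : sg (a * b) = sg a * sg b := Nat.Coprime.sum_divisors_mul h

lemma sg_perfect {N : ℕ} (h : N.Perfect) : sg N = 2 * N :=
  (Nat.perfect_iff_sum_divisors_eq_two_mul h.2).1 h

lemma lt_sg {n : ℕ} (h : 1 < n) : n < sg n := by
  have h1 : ({1, n} : Finset ℕ) ⊆ n.divisors := by
    intro d hd
    rw [mem_insert, mem_singleton] at hd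
    rw [Nat.mem_divisors]
    rcases hd with rfl | rfl
    · exact ⟨one_dvd _, by omega⟩
    · exact ⟨dvd_rfl, by omega⟩
  have h2 : ∑ d ∈ ({1, n} : Finset ℕ), d ≤ sg n := sum_le_sum_of_subset h1
  rw [sum_pair (by omega)] at h2
  omega

/-- `A` is a unitary divisor of `N` -/
def U (A N : ℕ) : Prop := ∃ C, N = A * C ∧ A.Coprime C

/-- the next prime -/
def nxt (A : ℕ) : ℕ := (sg A / Nat.gcd (sg A) (2 * A)).minFac

lemma nxt_spec {A C : ℕ} (hN : (A * C).Perfect) (hc : A.Coprime C) (hA : 1 < A) (hC : 1 < C) :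
    (nxt A).Prime ∧ nxt A ∣ C ∧ nxt A < 2 * A := by
  have hs : sg A * sg C = 2 * (A * C) := by rw [← sg_mul hc, sg_perfect hN]
  have h1 := lt_sg hA
  have h2 := lt_sg hC
  have hlt : sg A < 2 * A := by
    by_contra hge
    push Not at hge
    have : 2 * A * sg C ≤ sg A * sg C := Nat.mul_le_mul_right _ hge
    have h3 : 2 * A * C < 2 * A * sg C := Nat.mul_lt_mul_of_pos_left h2 (by omega)
    nlinarith
  obtain ⟨g, hg⟩ : ∃ g, g = Nat.gcd (sg A) (2 * A) := ⟨_, rfl⟩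
  have hg0 : 0 < g := by rw [hg]; exact Nat.gcd_pos_of_pos_left _ (by omega)
  have hga : g ∣ sg A := by rw [hg]; exact Nat.gcd_dvd_left _ _
  have hgb : g ∣ 2 * A := by rw [hg]; exact Nat.gcd_dvd_right _ _
  obtain ⟨a, ha⟩ := hga
  obtain ⟨b, hb⟩ := hgb
  have hda : sg A / g = a := by rw [ha, Nat.mul_div_cancel_left _ hg0]
  have hdb : 2 * A / g = b := by rw [hb, Nat.mul_div_cancel_left _ hg0]
  have hcop : a.Coprime b := by
    rw [← hda, ← hdb, hg]
    exact Nat.coprime_div_gcd_div_gcd (Nat.gcd_pos_of_pos_left _ (by omega))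
  have hdvd : a ∣ C := by
    have h3 : g * (a * sg C) = g * (b * C) := by
      calc g * (a * sg C) = (g * a) * sg C := by ring
        _ = 2 * (A * C) := by rw [← ha, hs]
        _ = (2 * A) * C := by ring
        _ = g * (b * C) := by rw [hb]; ring
    have h4 : a * sg C = b * C := Nat.eq_of_mul_eq_mul_left hg0 h3
    exact hcop.dvd_of_dvd_mul_left (Dvd.intro _ h4)
  have ha1 : a ≠ 1 := by
    rintro rfl
    rw [mul_one] at ha
    rw [← ha] at hb
    rcases Nat.eq_zero_or_pos b with h0 | h0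
    · rw [h0, mul_zero] at hb; omega
    · rcases (show b = 1 ∨ 2 ≤ b by omega) with h5 | h5
      · rw [h5, mul_one] at hb; omega
      · have : sg A * 2 ≤ sg A * b := Nat.mul_le_mul_left _ h5
        omega
  have hn : nxt A = a.minFac := by
    unfold nxt
    rw [← hg, hda]
  rw [hn]
  have ha0 : 0 < a := by
    rcases Nat.eq_zero_or_pos a with h0 | h0
    · rw [h0, mul_zero] at ha; omega
    · exact h0
  refine ⟨Nat.minFac_prime ha1, (Nat.minFac_dvd a).trans hdvd, ?_⟩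
  have h6 : a.minFac ≤ a := Nat.minFac_le ha0
  have h7 : a ≤ sg A := by rw [ha]; exact Nat.le_mul_of_pos_left _ hg0
  omega

section weight
variable (ε c : ℝ) (T : ℕ)

/-- the small primes not dividing `A` -/
def sm (A : ℕ) : ℕ := ((range T).filter fun p => p.Prime ∧ ¬ p ∣ A).card

/-- the weight of `A` -/
noncomputable def wt (A : ℕ) : ℝ := (A : ℝ) ^ (-ε) * c ^ sm T A

lemma geom_le {x : ℝ} (hx0 : 0 ≤ x) (hx1 : x < 1) (n : ℕ) : ∑ e ∈ Icc 1 n, x ^ e ≤ x / (1 - x) := by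
  have h1 : (0 : ℝ) < 1 - x := by linarith
  have key : ∀ n : ℕ, ∑ e ∈ Icc 1 n, x ^ e = (x - x ^ (n + 1)) / (1 - x) := by
    intro n
    induction n with
    | zero => simp
    | succ n ih =>
      rw [sum_Icc_succ_top (by omega), ih]
      field_simp
      ring
  rw [key]
  apply div_le_div_of_nonneg_right _ h1.le
  have : 0 ≤ x ^ (n + 1) := by positivity
  linarith

lemma sm_mul_big {A p e : ℕ} (hp : p.Prime) (hpT : T ≤ p) : sm T (A * p ^ e) = sm T A := by
  unfold sm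
  congr 1
  apply filter_congr
  intro r hr
  rw [mem_range] at hr
  constructor
  · rintro ⟨h1, h2⟩
    exact ⟨h1, fun h => h2 (h.mul_right _)⟩
  · rintro ⟨h1, h2⟩
    refine ⟨h1, fun h => ?_⟩
    rcases h1.dvd_mul.1 h with h | h
    · exact h2 h
    · have := (Nat.prime_dvd_prime_iff_eq h1 hp).1 (h1.dvd_of_dvd_pow h)
      omega

lemma sm_mul_small {A p e : ℕ} (hp : p.Prime) (hpT : p < T) (hpA : ¬ p ∣ A) (he : 1 ≤ e) :
    sm T (A * p ^ e) + 1 = sm T A := by
  unfold sm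
  have h1 : (range T).filter (fun r => r.Prime ∧ ¬ r ∣ A) =
      insert p ((range T).filter fun r => r.Prime ∧ ¬ r ∣ A * p ^ e) := by
    ext r
    rw [mem_insert, mem_filter, mem_filter, mem_range]
    constructor
    · rintro ⟨h1, h2, h3⟩
      by_cases hrp : r = p
      · exact Or.inl hrp
      · refine Or.inr ⟨h1, h2, fun h => ?_⟩
        rcases h2.dvd_mul.1 h with h | h
        · exact h3 h
        · exact hrp ((Nat.prime_dvd_prime_iff_eq h2 hp).1 (h2.dvd_of_dvd_pow h))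
    · rintro (rfl | ⟨h1, h2, h3⟩)
      · exact ⟨hpT, hp, hpA⟩
      · exact ⟨h1, h2, fun h => h3 (h.mul_right _)⟩
  rw [h1, card_insert_of_notMem]
  rw [mem_filter]
  rintro ⟨-, -, h⟩
  exact h ((dvd_pow_self p (by omega)).mul_left A)

variable {ε c T}

/-- the weights of the successors -/
lemma wt_sum (hε : 0 < ε) (hc1 : 1 ≤ c) (hc : 2 / ((2 : ℝ) ^ ε - 1) ≤ c) (hT : (3 : ℝ) ≤ (T : ℝ) ^ ε)
    {A p : ℕ} (hA : 1 ≤ A) (hp : p.Prime) (hpA : ¬ p ∣ A) (n : ℕ) :
    ∑ e ∈ Icc 1 n, wt ε c T (A * p ^ e) ≤ wt ε c T A / 2 := by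
  have hp0 : (0 : ℝ) < p := by exact_mod_cast hp.pos
  have hp2 : (2 : ℝ) ≤ p := by exact_mod_cast hp.two_le
  have hA0 : (0 : ℝ) < A := by exact_mod_cast hA
  obtain ⟨X, hX⟩ : ∃ X : ℝ, X = (p : ℝ) ^ ε := ⟨_, rfl⟩
  obtain ⟨Z, hZ⟩ : ∃ Z : ℝ, Z = (2 : ℝ) ^ ε := ⟨_, rfl⟩
  have hZ1 : 1 < Z := by rw [hZ]; exact Real.one_lt_rpow (by norm_num) hε
  have hZX : Z ≤ X := by rw [hZ, hX]; exact Real.rpow_le_rpow (by norm_num) hp2 hε.le
  have hX1 : 1 < X := by linarith
  have hx : ∀ e : ℕ, ((A * p ^ e : ℕ) : ℝ) ^ (-ε) = (A : ℝ) ^ (-ε) * (X⁻¹) ^ e := by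
    intro e
    push_cast
    rw [Real.mul_rpow hA0.le (by positivity), ← Real.rpow_natCast, ← Real.rpow_mul hp0.le, hX, ← Real.rpow_neg hp0.le,
      ← Real.rpow_natCast, ← Real.rpow_mul hp0.le]
    congr 2
    ring
  have hg := geom_le (x := X⁻¹) (by positivity) (inv_lt_one_of_one_lt₀ hX1) n
  have hg2 : X⁻¹ / (1 - X⁻¹) = 1 / (X - 1) := by
    have h1 : X - 1 ≠ 0 := by linarith
    have h2 : X ≠ 0 := by linarith
    field_simp
  rw [hg2] at hg
  have hAp : 0 < (A : ℝ) ^ (-ε) := by positivity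
  by_cases hpT : T ≤ p
  · have hX3 : 3 ≤ X := by
      rw [hX]
      exact hT.trans (Real.rpow_le_rpow (Nat.cast_nonneg _) (by exact_mod_cast hpT) hε.le)
    have h1 : 1 / (X - 1) ≤ 1 / 2 := one_div_le_one_div_of_le (by norm_num) (by linarith)
    calc ∑ e ∈ Icc 1 n, wt ε c T (A * p ^ e) = wt ε c T A * ∑ e ∈ Icc 1 n, (X⁻¹) ^ e := by
          rw [mul_sum]
          refine sum_congr rfl fun e _ => ?_
          unfold wt
          rw [hx, sm_mul_big T hp hpT]
          ring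
      _ ≤ wt ε c T A * (1 / 2) := by
          apply mul_le_mul_of_nonneg_left (hg.trans h1)
          unfold wt
          positivity
      _ = _ := by ring
  · push Not at hpT
    have h1 : 1 / (X - 1) ≤ c / 2 := by
      have h2 : 1 / (X - 1) ≤ 1 / (Z - 1) := one_div_le_one_div_of_le (by linarith) (by linarith)
      have h3 : 2 / (Z - 1) = 2 * (1 / (Z - 1)) := by ring
      rw [← hZ, h3] at hc
      linarith
    calc ∑ e ∈ Icc 1 n, wt ε c T (A * p ^ e) = (A : ℝ) ^ (-ε) * c ^ (sm T A - 1) * ∑ e ∈ Icc 1 n, (X⁻¹) ^ e := by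
          rw [mul_sum]
          refine sum_congr rfl fun e he => ?_
          have h2 := sm_mul_small T (A := A) (e := e) hp hpT hpA (mem_Icc.1 he).1
          have h3 : sm T (A * p ^ e) = sm T A - 1 := by omega
          unfold wt
          rw [hx, h3]
          ring
      _ ≤ (A : ℝ) ^ (-ε) * c ^ (sm T A - 1) * (c / 2) := by
          apply mul_le_mul_of_nonneg_left (hg.trans h1)
          positivity
      _ = _ := by
          have h2 := sm_mul_small T (A := A) (e := 1) hp hpT hpA le_rfl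
          have h3 : sm T A = (sm T A - 1) + 1 := by omega
          unfold wt
          nth_rewrite 2 [h3]
          rw [pow_succ]
          ring

end weight

section count
open Classical

variable {ε c : ℝ} {T : ℕ} {𝒩 : Finset ℕ} {Y : ℕ} {K : ℝ}

/-- one step of the recursion -/
lemma step (h𝒩 : ∀ N ∈ 𝒩, N.Perfect)
    (hK : ∀ B : ℕ, Y ≤ B → B < 2 * Y ^ 2 → ((𝒩.filter fun N => B ∣ N).card : ℝ) ≤ K)
    {A p : ℕ} (hA : 1 ≤ A) (hAY : A < Y) (hp : p.Prime) (hpA : ¬ p ∣ A) (hpY : p < 2 * Y) :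
    ∃ n : ℕ, (∀ e ∈ Icc 1 n, A * p ^ e < Y) ∧ ((𝒩.filter fun N => U A N ∧ p ∣ N).card : ℝ) ≤
      K + ∑ e ∈ Icc 1 n, ((𝒩.filter fun N => U (A * p ^ e) N).card : ℝ) := by
  have hex : ∃ f, Y ≤ A * p ^ f := by
    refine ⟨Y, ?_⟩
    have h1 : Y < p ^ Y := Nat.lt_pow_self hp.one_lt
    calc Y ≤ 1 * p ^ Y := by omega
      _ ≤ A * p ^ Y := Nat.mul_le_mul_right _ hA
  obtain ⟨f, hf, hmin⟩ : ∃ f, Y ≤ A * p ^ f ∧ ∀ e < f, A * p ^ e < Y := by
    refine ⟨Nat.find hex, Nat.find_spec hex, fun e he => ?_⟩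
    have := Nat.find_min hex he
    omega
  have hf1 : 1 ≤ f := by
    rcases Nat.eq_zero_or_pos f with h0 | h0
    · rw [h0, pow_zero, mul_one] at hf; omega
    · exact h0
  have hB : A * p ^ f < 2 * Y ^ 2 := by
    have h1 := hmin (f - 1) (by omega)
    have h2 : A * p ^ f = (A * p ^ (f - 1)) * p := by
      rw [mul_assoc, ← pow_succ, Nat.sub_add_cancel hf1]
    rw [h2]
    have hY0 : 0 < Y := by omega
    calc A * p ^ (f - 1) * p ≤ Y * p := Nat.mul_le_mul_right _ h1.le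
      _ < Y * (2 * Y) := Nat.mul_lt_mul_of_pos_left hpY hY0
      _ = 2 * Y ^ 2 := by ring
  refine ⟨f - 1, fun e he => hmin e (by have := mem_Icc.1 he; omega), ?_⟩
  have hsub : (𝒩.filter fun N => U A N ∧ p ∣ N) ⊆ (𝒩.filter fun N => A * p ^ f ∣ N) ∪
      (Icc 1 (f - 1)).biUnion fun e => 𝒩.filter fun N => U (A * p ^ e) N := by
    intro N hN
    obtain ⟨hN1, ⟨C, hC, hAC⟩, hpN⟩ := mem_filter.1 hN
    have hN0 : 0 < N := (h𝒩 N hN1).2
    have hC0 : C ≠ 0 := by
      rintro rfl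
      rw [mul_zero] at hC; omega
    obtain ⟨e, C', hC', hCe⟩ := Nat.exists_eq_pow_mul_and_not_dvd hC0 p hp.ne_one
    rw [mem_union, mem_biUnion]
    by_cases hef : f ≤ e
    · left
      rw [mem_filter]
      refine ⟨hN1, ?_⟩
      rw [hC, hCe]
      exact Nat.mul_dvd_mul_left A ((pow_dvd_pow p hef).mul_right C')
    · right
      have he1 : 1 ≤ e := by
        rcases Nat.eq_zero_or_pos e with h0 | h0
        · exfalso
          rw [h0, pow_zero, one_mul] at hCe
          rw [hC] at hpN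
          rcases hp.dvd_mul.1 hpN with h | h
          · exact hpA h
          · rw [hCe] at h; exact hC' h
        · exact h0
      refine ⟨e, mem_Icc.2 ⟨he1, by omega⟩, mem_filter.2 ⟨hN1, C', ?_, ?_⟩⟩
      · rw [hC, hCe]; ring
      · have h1 : A.Coprime C' := hAC.coprime_dvd_right (by rw [hCe]; exact dvd_mul_left _ _)
        have h2 : (p ^ e).Coprime C' := Nat.Coprime.pow_left e ((Nat.Prime.coprime_iff_not_dvd hp).2 hC')
        exact Nat.Coprime.mul_left h1 h2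
  have h1 := card_le_card hsub
  have h2 := card_union_le (𝒩.filter fun N => A * p ^ f ∣ N)
    ((Icc 1 (f - 1)).biUnion fun e => 𝒩.filter fun N => U (A * p ^ e) N)
  have h3 := card_biUnion_le (s := Icc 1 (f - 1)) (t := fun e => 𝒩.filter fun N => U (A * p ^ e) N)
  have h4 : ((𝒩.filter fun N => U A N ∧ p ∣ N).card : ℝ) ≤ ((𝒩.filter fun N => A * p ^ f ∣ N).card : ℝ) +
      ∑ e ∈ Icc 1 (f - 1), ((𝒩.filter fun N => U (A * p ^ e) N).card : ℝ) := by
    exact_mod_cast h1.trans (h2.trans (Nat.add_le_add_left h3 _))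
  have h5 := hK (A * p ^ f) hf hB
  linarith

/-- summation over the exponents -/
lemma step_sum (h𝒩 : ∀ N ∈ 𝒩, N.Perfect) (hε : 0 < ε) (hc1 : 1 ≤ c) (hc : 2 / ((2 : ℝ) ^ ε - 1) ≤ c)
    (hT : (3 : ℝ) ≤ (T : ℝ) ^ ε) (hK1 : 1 ≤ K)
    (hK : ∀ B : ℕ, Y ≤ B → B < 2 * Y ^ 2 → ((𝒩.filter fun N => B ∣ N).card : ℝ) ≤ K)
    {A p : ℕ} (hA : 1 ≤ A) (hAY : A < Y) (hp : p.Prime) (hpA : ¬ p ∣ A) (hpY : p < 2 * Y)
    (ih : ∀ e : ℕ, 1 ≤ e → A * p ^ e < Y →
      ((𝒩.filter fun N => U (A * p ^ e) N).card : ℝ) ≤ K * (2 * ((Y : ℝ) ^ ε * wt ε c T (A * p ^ e)) - 1)) :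
    ((𝒩.filter fun N => U A N ∧ p ∣ N).card : ℝ) ≤ K * (2 * ((Y : ℝ) ^ ε * wt ε c T A) - 1) := by
  obtain ⟨n, hn, hle⟩ := step h𝒩 hK hA hAY hp hpA hpY
  have hA0 : (0 : ℝ) < A := by exact_mod_cast hA
  have hY0 : (0 : ℝ) < Y := by exact_mod_cast (by omega : 0 < Y)
  have hW : 1 ≤ (Y : ℝ) ^ ε * wt ε c T A := by
    unfold wt
    have h1 : (1 : ℝ) ≤ (Y : ℝ) ^ ε * (A : ℝ) ^ (-ε) := by
      rw [Real.rpow_neg hA0.le, ← div_eq_mul_inv, one_le_div (by positivity)]
      exact Real.rpow_le_rpow hA0.le (by exact_mod_cast hAY.le) hε.le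
    have h2 : (1 : ℝ) ≤ c ^ sm T A := one_le_pow₀ hc1
    nlinarith
  have h1 : ∑ e ∈ Icc 1 n, ((𝒩.filter fun N => U (A * p ^ e) N).card : ℝ) ≤
      ∑ e ∈ Icc 1 n, K * (2 * ((Y : ℝ) ^ ε * wt ε c T (A * p ^ e)) - 1) :=
    sum_le_sum fun e he => ih e (mem_Icc.1 he).1 (hn e he)
  have h2 : ∑ e ∈ Icc 1 n, K * (2 * ((Y : ℝ) ^ ε * wt ε c T (A * p ^ e)) - 1) =
      K * (2 * (Y : ℝ) ^ ε * ∑ e ∈ Icc 1 n, wt ε c T (A * p ^ e) - n) := by
    rw [← mul_sum, sum_sub_distrib, sum_const, Nat.card_Icc, mul_sum]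
    simp only [nsmul_eq_mul, mul_one, Nat.add_sub_cancel]
    congr 2
    refine sum_congr rfl fun e _ => ?_
    ring
  have h3 := wt_sum hε hc1 hc hT hA hp hpA n
  have hYε : 0 < (Y : ℝ) ^ ε := by positivity
  have h4 : 2 * (Y : ℝ) ^ ε * ∑ e ∈ Icc 1 n, wt ε c T (A * p ^ e) ≤ (Y : ℝ) ^ ε * wt ε c T A := by
    nlinarith
  rcases Nat.eq_zero_or_pos n with h0 | h0
  · rw [h0] at hle
    simp only [show Icc 1 0 = (∅ : Finset ℕ) from rfl, sum_empty, add_zero] at hle
    nlinarith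
  · have hn1 : (1 : ℝ) ≤ n := by exact_mod_cast h0
    rw [h2] at h1
    have h5 : K * (2 * (Y : ℝ) ^ ε * ∑ e ∈ Icc 1 n, wt ε c T (A * p ^ e) - n) ≤
        K * ((Y : ℝ) ^ ε * wt ε c T A - 1) := by
      apply mul_le_mul_of_nonneg_left _ (by linarith)
      linarith
    nlinarith

/-- the number of the members with the unitary divisor `A` -/
theorem count_U (h𝒩 : ∀ N ∈ 𝒩, N.Perfect) (hε : 0 < ε) (hc1 : 1 ≤ c) (hc : 2 / ((2 : ℝ) ^ ε - 1) ≤ c)
    (hT : (3 : ℝ) ≤ (T : ℝ) ^ ε) (hK1 : 1 ≤ K)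
    (hK : ∀ B : ℕ, Y ≤ B → B < 2 * Y ^ 2 → ((𝒩.filter fun N => B ∣ N).card : ℝ) ≤ K) :
    ∀ m A : ℕ, Y - A ≤ m → 1 < A → A < Y →
      ((𝒩.filter fun N => U A N).card : ℝ) ≤ K * (2 * ((Y : ℝ) ^ ε * wt ε c T A) - 1) := by
  intro m
  induction m with
  | zero => intro A h1 h2 h3; omega
  | succ m ih =>
    intro A hm hA hAY
    have hA0 : (0 : ℝ) < A := by exact_mod_cast (by omega : 0 < A)
    have hY0 : (0 : ℝ) < Y := by exact_mod_cast (by omega : 0 < Y)
    have hW : 1 ≤ (Y : ℝ) ^ ε * wt ε c T A := by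
      unfold wt
      have h1 : (1 : ℝ) ≤ (Y : ℝ) ^ ε * (A : ℝ) ^ (-ε) := by
        rw [Real.rpow_neg hA0.le, ← div_eq_mul_inv, one_le_div (by positivity)]
        exact Real.rpow_le_rpow hA0.le (by exact_mod_cast hAY.le) hε.le
      have h2 : (1 : ℝ) ≤ c ^ sm T A := one_le_pow₀ hc1
      nlinarith
    have hKW : (1 : ℝ) ≤ K * (2 * ((Y : ℝ) ^ ε * wt ε c T A) - 1) := by nlinarith
    by_cases hP : A.Perfect
    · -- only `A` itself
      have h1 : (𝒩.filter fun N => U A N) ⊆ {A} := by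
        intro N hN
        obtain ⟨hN1, C, hC, hAC⟩ := mem_filter.1 hN
        rw [mem_singleton, hC]
        have hN0 : 0 < N := (h𝒩 N hN1).2
        have hC0 : C ≠ 0 := by
          rintro rfl
          rw [mul_zero] at hC; omega
        by_contra hne
        have hC1 : 1 < C := by
          rcases (show C = 1 ∨ 1 < C by omega) with h | h
          · rw [h, mul_one] at hne; exact absurd rfl hne
          · exact h
        have h2 : sg A * sg C = 2 * (A * C) := by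
          rw [← sg_mul hAC, ← hC]; exact sg_perfect (h𝒩 N hN1)
        rw [sg_perfect hP] at h2
        have h3 := lt_sg hC1
        have h4 : 2 * A * C < 2 * A * sg C := Nat.mul_lt_mul_of_pos_left h3 (by omega)
        nlinarith
      have h2 : ((𝒩.filter fun N => U A N).card : ℝ) ≤ 1 := by
        exact_mod_cast (card_le_card h1).trans (by simp)
      linarith
    · rcases (𝒩.filter fun N => U A N).eq_empty_or_nonempty with h0 | ⟨N₀, hN₀⟩
      · rw [h0, card_empty, Nat.cast_zero]; linarith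
      · have hgood : ∀ N ∈ 𝒩.filter (fun N => U A N), (nxt A).Prime ∧ ¬ nxt A ∣ A ∧ nxt A < 2 * A ∧ nxt A ∣ N := by
          intro N hN
          obtain ⟨hN1, C, hC, hAC⟩ := mem_filter.1 hN
          have hN0 : 0 < N := (h𝒩 N hN1).2
          have hC0 : C ≠ 0 := by
            rintro rfl
            rw [mul_zero] at hC; omega
          have hC1 : 1 < C := by
            rcases (show C = 1 ∨ 1 < C by omega) with h | h
            · rw [h, mul_one] at hC
              rw [← hC] at hP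
              exact absurd (h𝒩 N hN1) hP
            · exact h
          have hPN : (A * C).Perfect := by rw [← hC]; exact h𝒩 N hN1
          obtain ⟨h1, h2, h3⟩ := nxt_spec hPN hAC hA hC1
          refine ⟨h1, fun h => ?_, h3, by rw [hC]; exact h2.mul_left A⟩
          have := Nat.Coprime.eq_one_of_dvd (hAC.coprime_dvd_left h) h2
          exact h1.ne_one this
        obtain ⟨hp, hpA, hp2, -⟩ := hgood N₀ hN₀
        have heq : (𝒩.filter fun N => U A N) = 𝒩.filter fun N => U A N ∧ nxt A ∣ N := by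
          apply Subset.antisymm
          · intro N hN
            exact mem_filter.2 ⟨(mem_filter.1 hN).1, (mem_filter.1 hN).2, (hgood N hN).2.2.2⟩
          · intro N hN
            exact mem_filter.2 ⟨(mem_filter.1 hN).1, (mem_filter.1 hN).2.1⟩
        rw [heq]
        apply step_sum h𝒩 hε hc1 hc hT hK1 hK (by omega) hAY hp hpA (by omega)
        intro e he heY
        have h1 : A < A * nxt A ^ e := by
          have h2 : 1 < nxt A ^ e := Nat.one_lt_pow (by omega) hp.one_lt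
          exact (Nat.lt_mul_iff_one_lt_right (by omega)).2 h2
        exact ih _ (by omega) (by omega) heY

/-- the number of the members divisible by a prime `q < Y` -/
theorem count_prime (h𝒩 : ∀ N ∈ 𝒩, N.Perfect) (hε : 0 < ε) (hc1 : 1 ≤ c) (hc : 2 / ((2 : ℝ) ^ ε - 1) ≤ c)
    (hT : (3 : ℝ) ≤ (T : ℝ) ^ ε) (hK1 : 1 ≤ K)
    (hK : ∀ B : ℕ, Y ≤ B → B < 2 * Y ^ 2 → ((𝒩.filter fun N => B ∣ N).card : ℝ) ≤ K)
    {q : ℕ} (hq : q.Prime) (hqY : q < Y) :
    ((𝒩.filter fun N => q ∣ N).card : ℝ) ≤ 2 * c ^ sm T 1 * (K * (Y : ℝ) ^ ε) := by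
  have h1 : (𝒩.filter fun N => q ∣ N) = 𝒩.filter fun N => U 1 N ∧ q ∣ N := by
    apply filter_congr
    intro N _
    refine ⟨fun h => ⟨⟨N, (one_mul N).symm, Nat.coprime_one_left N⟩, h⟩, fun h => h.2⟩
  have h2 := step_sum (A := 1) (p := q) h𝒩 hε hc1 hc hT hK1 hK le_rfl (by have := hq.two_le; omega) hq
    (fun h => hq.one_lt.ne' (Nat.dvd_one.1 h)) (by omega) ?_
  · rw [h1]
    refine h2.trans ?_
    have h3 : wt ε c T 1 = c ^ sm T 1 := by
      unfold wt
      rw [Nat.cast_one, Real.one_rpow, one_mul]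
    rw [h3]
    nlinarith
  · intro e he heY
    rw [one_mul] at heY ⊢
    apply count_U h𝒩 hε hc1 hc hT hK1 hK (Y - q ^ e) _ le_rfl (Nat.one_lt_pow (by omega) hq.one_lt) heY

end count

end Pool.Agent.D0H92.SI
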